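import Mathlib

/-!
# Definitions: smooth projective varieties, linear projections and their fibres, smoothability

We work over `ℂ`.  Projective space `ℙ^N` has the homogeneous coordinates `X 0, …, X N`, indexed
by `Fin (N + 1)`; a point of `ℙ^N` is given by a non-zero vector `x : Fin (N + 1) → ℂ`.
(The auxiliary definitions below allow any index type `ι` in place of `Fin (N + 1)`.)
-/

set_option autoImplicit false

open MvPolynomial TensorProduct

namespace Pool.Agent.MP37c606

variable {ι : Type}

/-- The gradient `(∂f/∂X_i)(x)` of a polynomial `f` at a point `x`. -/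
noncomputable def grad (x : ι → ℂ) (f : MvPolynomial ι ℂ) : ι → ℂ := fun i => eval x (pderiv i f)

/-- The ideal `I` of `ℂ[X_0, …, X_N]` is the homogeneous ideal of a smooth irreducible projective
variety `X ⊂ ℙ^N` of dimension `n`. -/
structure IsSmoothProjVariety (N n : ℕ) (I : Ideal (MvPolynomial (Fin (N + 1)) ℂ)) : Prop where
  /-- `I` is a homogeneous ideal: it contains the homogeneous components of its elements -/
  homogeneous : ∀ f ∈ I, ∀ d : ℕ, homogeneousComponent d f ∈ I
  /-- `X` is integral, that is reduced and irreducible -/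
  prime : I.IsPrime
  /-- the affine cone `Spec ℂ[X_0, …, X_N]/I` has dimension `n + 1`, that is, `dim X = n` -/
  dim : ringKrullDim (MvPolynomial (Fin (N + 1)) ℂ ⧸ I) = (n + 1 : ℕ)
  /-- Jacobian criterion: at every point `[x]` of `X` the gradients of the elements of `I` span a
  space of dimension equal to the codimension `N - n` of `X`, so `X` is smooth at `[x]` -/
  smooth : ∀ x : Fin (N + 1) → ℂ, x ≠ 0 → (∀ f ∈ I, eval x f = 0) →
    Module.finrank ℂ (Submodule.span ℂ
      (grad x '' (I : Set (MvPolynomial (Fin (N + 1)) ℂ)))) + n = N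

/-- The homomorphism `f ↦ f (w + ∑ a, t_a V_a)`, `ℂ[X_i] → ℂ[t_a]`: restriction of a polynomial to
the affine space `w + span V`, in the coordinates `t_a`. -/
noncomputable def restr {r : ℕ} (V : Fin r → ι → ℂ) (w : ι → ℂ) :
    MvPolynomial ι ℂ →ₐ[ℂ] MvPolynomial (Fin r) ℂ :=
  aeval fun i => C (w i) + ∑ a, C (V a i) * X a

/-- The coordinate ring of the scheme-theoretic fibre over the image `y` of `[w]` of the linear
projection of `X` (the projective scheme with homogeneous ideal `I`) with centre `Λ = ℙ(span V)`,
where `V` is a family of `r` linearly independent vectors, `w ∉ span V`, and `Λ ∩ X = ∅`.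

The fibre over `y` of the projection `ℙ^N ∖ Λ → ℙ^m` (`m = N - r`) is `⟨Λ, [w]⟩ ∖ Λ`, which is
identified with the affine space `𝔸^r` by `t ↦ [w + ∑ a, t_a V_a]`.  So the fibre of the
projection of `X` is the closed subscheme of `𝔸^r` defined by the polynomials
`f (w + ∑ a, t_a V_a)`, `f ∈ I`. -/
abbrev FibreRing {r : ℕ} (I : Ideal (MvPolynomial ι ℂ)) (V : Fin r → ι → ℂ) (w : ι → ℂ) : Type :=
  MvPolynomial (Fin r) ℂ ⧸ I.map (restr V w)

/-- A commutative `ℂ`-algebra `A` (the coordinate ring of a finite scheme `Z = Spec A`) is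
*smoothable* if `Z` is a flat limit of reduced schemes: there are an integral domain `B` over `ℂ`
(an irreducible and reduced base `Spec B`), a finite flat `B`-algebra `C` (a flat family of finite
schemes over this base) whose generic fibre is étale (that is, geometrically a disjoint union of
reduced points), and a `ℂ`-point `x₀` of the base over which the fibre
`C ⊗_B ℂ = C / (ker x₀) C` is isomorphic to `A`. -/
def IsSmoothable (A : Type) [CommRing A] [Algebra ℂ A] : Prop :=
  ∃ (B : Type) (_ : CommRing B) (_ : IsDomain B) (_ : Algebra ℂ B)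
    (C : Type) (_ : CommRing C) (_ : Algebra ℂ C) (_ : Algebra B C) (_ : IsScalarTower ℂ B C)
    (_ : Module.Finite B C) (_ : Module.Flat B C) (x₀ : B →ₐ[ℂ] ℂ),
    Algebra.Etale (FractionRing B) (FractionRing B ⊗[B] C) ∧
    Nonempty (A ≃ₐ[ℂ] C ⧸ (RingHom.ker x₀).map (algebraMap B C))

end Pool.Agent.MP37c606
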