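import Mathlib

/-!
# Linear independence of products of square roots
-/

set_option autoImplicit false

namespace Pool.Agent.MP37c606

/-- Products of square roots of elements that are independent modulo squares are linearly
independent. -/
theorem sqrt_indep {K L : Type*} [Field K] [Field L] [Algebra K L] [IsGalois K L]
    {α : Type*} [Fintype α] [DecidableEq α] (g : α → K) (s : α → L)
    (hs : ∀ i, s i ^ 2 = algebraMap K L (g i))
    (hns : ∀ S : Finset α, S.Nonempty → ¬ IsSquare (∏ i ∈ S, g i)) :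
    LinearIndependent K (fun S : Finset α => ∏ i ∈ S, s i) := by
  classical
  have hg0 : ∀ i, g i ≠ 0 := by
    intro i hi
    apply hns {i} (Finset.singleton_nonempty i)
    rw [Finset.prod_singleton, hi]
    exact ⟨0, by simp⟩
  have hs0 : ∀ i, s i ≠ 0 := by
    intro i hi
    have := hs i
    rw [hi, zero_pow two_ne_zero] at this
    exact hg0 i ((map_eq_zero _).1 this.symm)
  have hprod0 : ∀ S : Finset α, ∏ i ∈ S, s i ≠ 0 := fun S =>
    Finset.prod_ne_zero_iff.2 fun i _ => hs0 i
  -- two distinct products are separated by an automorphism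
  have hsep : ∀ S₀ S₁ : Finset α, S₀ ≠ S₁ → ∃ (σ : L ≃ₐ[K] L) (ε : Finset α → K),
      (∀ S, σ (∏ i ∈ S, s i) = algebraMap K L (ε S) * ∏ i ∈ S, s i) ∧ ε S₀ ≠ ε S₁ := by
    intro S₀ S₁ hne
    have hnot : (∏ i ∈ S₀, s i) * (∏ i ∈ S₁, s i) ∉ Set.range (algebraMap K L) := by
      rintro ⟨y, hy⟩
      have hΔ : (symmDiff S₀ S₁).Nonempty := by
        rw [Finset.nonempty_iff_ne_empty]
        intro h
        exact hne (symmDiff_eq_bot.1 h)
      apply hns _ hΔ
      have h1 : (∏ i ∈ S₀, g i) * (∏ i ∈ S₁, g i) =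
          (∏ i ∈ symmDiff S₀ S₁, g i) * (∏ i ∈ S₀ ∩ S₁, g i) ^ 2 := by
        have e1 : (∏ i ∈ S₀, g i) = (∏ i ∈ S₀ \ S₁, g i) * ∏ i ∈ S₀ ∩ S₁, g i := by
          rw [← Finset.prod_union]
          · congr 1
            ext i
            simp only [Finset.mem_union, Finset.mem_sdiff, Finset.mem_inter]
            tauto
          · rw [Finset.disjoint_left]
            intro i
            simp only [Finset.mem_sdiff, Finset.mem_inter]
            tauto
        have e2 : (∏ i ∈ S₁, g i) = (∏ i ∈ S₁ \ S₀, g i) * ∏ i ∈ S₀ ∩ S₁, g i := by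
          rw [← Finset.prod_union]
          · congr 1
            ext i
            simp only [Finset.mem_union, Finset.mem_sdiff, Finset.mem_inter]
            tauto
          · rw [Finset.disjoint_left]
            intro i
            simp only [Finset.mem_sdiff, Finset.mem_inter]
            tauto
        have e3 : (∏ i ∈ symmDiff S₀ S₁, g i) = (∏ i ∈ S₀ \ S₁, g i) * ∏ i ∈ S₁ \ S₀, g i := by
          rw [← Finset.prod_union]
          · congr 1
          · rw [Finset.disjoint_left]
            intro i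
            simp only [Finset.mem_sdiff]
            tauto
        rw [e1, e2, e3]
        ring
      have h2 : y ^ 2 = (∏ i ∈ S₀, g i) * (∏ i ∈ S₁, g i) := by
        apply (algebraMap K L).injective
        rw [map_pow, hy, mul_pow, ← Finset.prod_pow, ← Finset.prod_pow, map_mul, map_prod, map_prod]
        simp only [hs]
      have h3 : (∏ i ∈ S₀ ∩ S₁, g i) ≠ 0 := Finset.prod_ne_zero_iff.2 fun i _ => hg0 i
      refine ⟨y / (∏ i ∈ S₀ ∩ S₁, g i), ?_⟩
      rw [← pow_two, div_pow, h2, h1, mul_div_cancel_right₀ _ (pow_ne_zero 2 h3)]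
    have h4 : ¬ ∀ σ : L ≃ₐ[K] L, σ ((∏ i ∈ S₀, s i) * (∏ i ∈ S₁, s i)) =
        (∏ i ∈ S₀, s i) * (∏ i ∈ S₁, s i) := by
      intro h
      exact hnot ((InfiniteGalois.mem_range_algebraMap_iff_fixed _).2 h)
    push Not at h4
    obtain ⟨σ, hσ⟩ := h4
    have h5 : ∀ i, ∃ e : K, σ (s i) = algebraMap K L e * s i ∧ (e = 1 ∨ e = -1) := by
      intro i
      have h6 : σ (s i) ^ 2 = s i ^ 2 := by
        rw [← map_pow, hs, AlgEquiv.commutes]
      rcases sq_eq_sq_iff_eq_or_eq_neg.1 h6 with h | h
      · exact ⟨1, by simp [h], Or.inl rfl⟩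
      · exact ⟨-1, by simp [h], Or.inr rfl⟩
    choose e he he' using h5
    refine ⟨σ, fun S => ∏ i ∈ S, e i, ?_, ?_⟩
    · intro S
      rw [map_prod, map_prod, ← Finset.prod_mul_distrib]
      exact Finset.prod_congr rfl fun i _ => he i
    · intro h
      apply hσ
      have h7 : ∀ S : Finset α, σ (∏ i ∈ S, s i) = algebraMap K L (∏ i ∈ S, e i) * ∏ i ∈ S, s i := by
        intro S
        rw [map_prod, map_prod, ← Finset.prod_mul_distrib]
        exact Finset.prod_congr rfl fun i _ => he i
      have h8 : (∏ i ∈ S₀, e i) * (∏ i ∈ S₁, e i) = 1 := by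
        simp only at h
        rw [h, ← pow_two, ← Finset.prod_pow]
        apply Finset.prod_eq_one
        intro i _
        rcases he' i with h | h <;> rw [h] <;> norm_num
      rw [map_mul, h7, h7, mul_mul_mul_comm, ← map_mul, h8, map_one, one_mul]
  rw [Fintype.linearIndependent_iff]
  by_contra hcon
  push Not at hcon
  -- a non-trivial relation with minimal support
  let P : ℕ → Prop := fun n => ∃ c : Finset α → K, (∑ S, c S • ∏ i ∈ S, s i = 0) ∧
    (∃ S, c S ≠ 0) ∧ (Finset.univ.filter fun S => c S ≠ 0).card = n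
  have hP : ∃ n, P n := by
    obtain ⟨c, hc, S, hS⟩ := hcon
    exact ⟨_, c, hc, ⟨S, hS⟩, rfl⟩
  obtain ⟨c, hc, ⟨S₀, hS₀⟩, hn⟩ := Nat.find_spec hP
  have hmin := fun m (hm : m < Nat.find hP) => Nat.find_min hP hm
  by_cases hex : ∃ S₁, S₁ ≠ S₀ ∧ c S₁ ≠ 0
  · obtain ⟨S₁, hne, hS₁⟩ := hex
    obtain ⟨σ, ε, hσ, hε⟩ := hsep S₀ S₁ hne.symm
    let c' : Finset α → K := fun S => (ε S₀ - ε S) * c S
    have hc' : ∑ S, c' S • ∏ i ∈ S, s i = 0 := by
      have h1 : ∑ S, (ε S * c S) • ∏ i ∈ S, s i = 0 := by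
        have := congrArg σ hc
        rw [map_zero, map_sum] at this
        rw [← this]
        refine Finset.sum_congr rfl fun S _ => ?_
        rw [map_smul, hσ, Algebra.smul_def, Algebra.smul_def, map_mul]
        ring
      have h3 : ∑ S, (ε S₀ * c S) • ∏ i ∈ S, s i = 0 := by
        simp only [mul_smul]
        rw [← Finset.smul_sum, hc, smul_zero]
      simp only [c', sub_mul, sub_smul, Finset.sum_sub_distrib]
      rw [h1, h3, sub_zero]
    have hc'1 : c' S₁ ≠ 0 := mul_ne_zero (sub_ne_zero.2 hε) hS₁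
    refine hmin _ ?_ ⟨c', hc', ⟨S₁, hc'1⟩, rfl⟩
    rw [← hn]
    apply Finset.card_lt_card
    rw [Finset.ssubset_iff_of_subset]
    · refine ⟨S₀, by simpa using hS₀, ?_⟩
      simp [c']
    · intro S
      simp only [Finset.mem_filter, Finset.mem_univ, true_and, c']
      intro h
      exact right_ne_zero_of_mul h
  · push Not at hex
    rw [Finset.sum_eq_single S₀ (fun S _ hS => by rw [hex S hS, zero_smul])
      (fun h => absurd (Finset.mem_univ _) h)] at hc
    rcases smul_eq_zero.1 hc with h | h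
    · exact hS₀ h
    · exact hprod0 _ h

end Pool.Agent.MP37c606
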