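import Mathlib
import Pool.Agent.Lib.MP_37c606_ag.SqrtIndep

/-!
# Complete intersections of diagonal quadrics with Vandermonde coefficients
-/

set_option autoImplicit false

open MvPolynomial

namespace Pool.Agent.MP37c606

section defs

variable {ι : Type*} [Fintype ι]

/-- The diagonal quadric `∑ᵢ λᵢʲ xᵢ²`. -/
noncomputable def quad (lam : ι → ℂ) (j : ℕ) : MvPolynomial ι ℂ :=
  ∑ i, C (lam i ^ j) * X i ^ 2

/-- The ideal of the intersection of the `c` diagonal quadrics `∑ᵢ λᵢʲ xᵢ² = 0`, `j < c`. -/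
noncomputable def fermatIdeal (c : ℕ) (lam : ι → ℂ) : Ideal (MvPolynomial ι ℂ) :=
  Ideal.span (Set.range fun j : Fin c => quad lam j)

lemma quad_mem {c : ℕ} (lam : ι → ℂ) {j : ℕ} (hj : j < c) : quad lam j ∈ fermatIdeal c lam :=
  Ideal.subset_span ⟨⟨j, hj⟩, rfl⟩

lemma eval_quad (lam : ι → ℂ) (j : ℕ) (x : ι → ℂ) :
    eval x (quad lam j) = ∑ i, lam i ^ j * x i ^ 2 := by
  simp [quad]

/-- Every polynomial of degree `< c` gives an element of the ideal. -/
lemma comb_mem {c : ℕ} (lam : ι → ℂ) (p : Polynomial ℂ) (hp : p.natDegree < c) :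
    ∑ k, C (p.eval (lam k)) * X k ^ 2 ∈ fermatIdeal c lam := by
  have h : ∑ k, C (p.eval (lam k)) * X k ^ 2 =
      ∑ j ∈ Finset.range c, C (p.coeff j) * quad lam j := by
    simp only [quad, Finset.mul_sum]
    rw [Finset.sum_comm]
    refine Finset.sum_congr rfl fun k _ => ?_
    rw [Polynomial.eval_eq_sum_range' hp, map_sum, Finset.sum_mul]
    refine Finset.sum_congr rfl fun j _ => ?_
    rw [map_mul, mul_assoc]
  rw [h]
  exact Ideal.sum_mem _ fun j hj => Ideal.mul_mem_left _ _ (quad_mem lam (Finset.mem_range.1 hj))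

lemma sum_eval_eq_zero {c : ℕ} (lam : ι → ℂ) (x : ι → ℂ)
    (hx : ∀ j < c, eval x (quad lam j) = 0) (p : Polynomial ℂ) (hp : p.natDegree < c) :
    ∑ k, p.eval (lam k) * x k ^ 2 = 0 := by
  have h : ∑ k, p.eval (lam k) * x k ^ 2 =
      ∑ j ∈ Finset.range c, p.coeff j * eval x (quad lam j) := by
    simp only [eval_quad, Finset.mul_sum]
    rw [Finset.sum_comm]
    refine Finset.sum_congr rfl fun k _ => ?_
    rw [Polynomial.eval_eq_sum_range' hp, Finset.sum_mul]
    refine Finset.sum_congr rfl fun j _ => ?_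
    rw [mul_assoc]
  rw [h]
  exact Finset.sum_eq_zero fun j hj => by rw [hx j (Finset.mem_range.1 hj), mul_zero]

end defs

section prime

variable {c : ℕ} {β : Type} [Fintype β] (lam : Fin c ⊕ β → ℂ)

/-- Lagrange basis polynomials at the first `c` nodes -/
noncomputable def lag (i : Fin c) : Polynomial ℂ :=
  Lagrange.basis Finset.univ (fun k : Fin c => lam (Sum.inl k)) i

/-- the polynomials whose square roots are adjoined -/
noncomputable def gp (i : Fin c) : MvPolynomial β ℂ :=
  - ∑ b, C ((lag lam i).eval (lam (Sum.inr b))) * X b ^ 2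

variable (hlam : Function.Injective lam)

include hlam

omit [Fintype β] in
lemma lag_eval_inl (i k : Fin c) : (lag lam i).eval (lam (Sum.inl k)) = if i = k then 1 else 0 := by
  have hinj : Function.Injective (fun k : Fin c => lam (Sum.inl k)) :=
    hlam.comp Sum.inl_injective
  split_ifs with h
  · subst h
    exact Lagrange.eval_basis_self (v := fun k : Fin c => lam (Sum.inl k)) hinj.injOn
      (Finset.mem_univ i)
  · exact Lagrange.eval_basis_of_ne (v := fun k : Fin c => lam (Sum.inl k)) h (Finset.mem_univ k)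

omit [Fintype β] in
lemma lag_natDegree (i : Fin c) : (lag lam i).natDegree < c := by
  have hinj : Function.Injective (fun k : Fin c => lam (Sum.inl k)) :=
    hlam.comp Sum.inl_injective
  rw [lag, Lagrange.natDegree_basis hinj.injOn (Finset.mem_univ i)]
  simp only [Finset.card_univ, Fintype.card_fin]
  have := i.pos
  omega

omit [Fintype β] in
lemma sum_lag (j : ℕ) (hj : j < c) (x : ℂ) :
    ∑ i, lam (Sum.inl i) ^ j * (lag lam i).eval x = x ^ j := by
  have hinj : Function.Injective (fun k : Fin c => lam (Sum.inl k)) :=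
    hlam.comp Sum.inl_injective
  have h := Lagrange.eq_interpolate (s := Finset.univ) (v := fun k : Fin c => lam (Sum.inl k))
    (f := (Polynomial.X : Polynomial ℂ) ^ j) hinj.injOn (by
      rw [Polynomial.degree_X_pow]
      simpa using hj)
  have h2 := congrArg (Polynomial.eval x) h
  rw [Lagrange.interpolate_apply, Polynomial.eval_finsetSum] at h2
  simp only [Polynomial.eval_mul, Polynomial.eval_C, Polynomial.eval_pow, Polynomial.eval_X] at h2
  exact h2.symm

omit [Fintype β] in
lemma lag_ne_zero (i : Fin c) (b : β) : (lag lam i).eval (lam (Sum.inr b)) ≠ 0 := by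
  have hinj : Function.Injective (fun k : Fin c => lam (Sum.inl k)) :=
    hlam.comp Sum.inl_injective
  rw [lag, Lagrange.basis, Polynomial.eval_prod, Finset.prod_ne_zero_iff]
  intro k hk
  rw [Lagrange.basisDivisor, Polynomial.eval_mul, Polynomial.eval_C, Polynomial.eval_sub,
    Polynomial.eval_X, Polynomial.eval_C]
  refine mul_ne_zero (inv_ne_zero (sub_ne_zero.2 ?_)) (sub_ne_zero.2 ?_)
  · intro h
    exact (Finset.ne_of_mem_erase hk) (hinj h).symm
  · intro h
    simpa using hlam h

omit [Fintype β] in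
/-- The ratios of the values at two further nodes are distinct. -/
lemma lag_ratio (b₁ b₂ : β) (hb : b₁ ≠ b₂) (i k : Fin c) (hik : i ≠ k) :
    (lag lam i).eval (lam (Sum.inr b₁)) * (lag lam k).eval (lam (Sum.inr b₂)) ≠
      (lag lam k).eval (lam (Sum.inr b₁)) * (lag lam i).eval (lam (Sum.inr b₂)) := by
  have hinj : Function.Injective (fun k : Fin c => lam (Sum.inl k)) :=
    hlam.comp Sum.inl_injective
  -- `(x - λᵢ) * ℒᵢ(x) = wᵢ * ω(x)`
  have key : ∀ (i : Fin c), ∃ w : ℂ, w ≠ 0 ∧ ∀ x : ℂ, (x - lam (Sum.inl i)) * (lag lam i).eval x =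
      w * ∏ k, (x - lam (Sum.inl k)) := by
    intro i
    refine ⟨∏ k ∈ Finset.univ.erase i, (lam (Sum.inl i) - lam (Sum.inl k))⁻¹, ?_, ?_⟩
    · rw [Finset.prod_ne_zero_iff]
      intro k hk
      refine inv_ne_zero (sub_ne_zero.2 fun h => ?_)
      exact (Finset.ne_of_mem_erase hk) (hinj h).symm
    · intro x
      rw [lag, Lagrange.basis, Polynomial.eval_prod,
        ← Finset.mul_prod_erase Finset.univ _ (Finset.mem_univ i)]
      simp only [Lagrange.basisDivisor, Polynomial.eval_mul, Polynomial.eval_C,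
        Polynomial.eval_sub, Polynomial.eval_X, Finset.prod_mul_distrib]
      ring
  obtain ⟨wi, hwi, hi⟩ := key i
  obtain ⟨wk, hwk, hk⟩ := key k
  intro h
  set x₁ := lam (Sum.inr b₁) with hx₁
  set x₂ := lam (Sum.inr b₂) with hx₂
  have hω : ∀ b : β, ∏ k, (lam (Sum.inr b) - lam (Sum.inl k)) ≠ 0 := fun b => by
    rw [Finset.prod_ne_zero_iff]
    intro k _
    refine sub_ne_zero.2 fun h => ?_
    simpa using hlam h
  have hω₁ := hω b₁
  have hω₂ := hω b₂
  have e1 := hi x₁
  have e2 := hi x₂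
  have e3 := hk x₁
  have e4 := hk x₂
  -- multiply the assumed equality by all the factors
  have h1 : (x₁ - lam (Sum.inl k)) * (x₂ - lam (Sum.inl i)) *
      ((wi * ∏ k, (x₁ - lam (Sum.inl k))) * (wk * ∏ k, (x₂ - lam (Sum.inl k)))) =
      (x₁ - lam (Sum.inl i)) * (x₂ - lam (Sum.inl k)) *
      ((wk * ∏ k, (x₁ - lam (Sum.inl k))) * (wi * ∏ k, (x₂ - lam (Sum.inl k)))) := by
    rw [← e1, ← e4, ← e3, ← e2]
    linear_combination (x₁ - lam (Sum.inl k)) * (x₂ - lam (Sum.inl i)) *
      (x₁ - lam (Sum.inl i)) * (x₂ - lam (Sum.inl k)) * h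
  have hne : (wi * ∏ k, (x₁ - lam (Sum.inl k))) * (wk * ∏ k, (x₂ - lam (Sum.inl k))) ≠ 0 :=
    mul_ne_zero (mul_ne_zero hwi hω₁) (mul_ne_zero hwk hω₂)
  have h2 : (x₁ - lam (Sum.inl k)) * (x₂ - lam (Sum.inl i)) =
      (x₁ - lam (Sum.inl i)) * (x₂ - lam (Sum.inl k)) := by
    apply mul_right_cancel₀ hne
    rw [h1]
    ring
  have h3 : (x₁ - x₂) * (lam (Sum.inl k) - lam (Sum.inl i)) = 0 := by
    linear_combination h2
  rcases mul_eq_zero.1 h3 with h4 | h4
  · have := hlam (sub_eq_zero.1 h4)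
    exact hb (by simpa using this)
  · have := hinj (sub_eq_zero.1 h4)
    exact hik this.symm

lemma sq_sub_mem (i : Fin c) :
    X (Sum.inl i) ^ 2 - rename Sum.inr (gp lam i) ∈ fermatIdeal c lam := by
  have h := comb_mem lam (lag lam i) (lag_natDegree lam hlam i)
  rw [Fintype.sum_sum_type] at h
  have h1 : ∑ k : Fin c, C ((lag lam i).eval (lam (Sum.inl k))) *
      (X (Sum.inl k) : MvPolynomial (Fin c ⊕ β) ℂ) ^ 2 = X (Sum.inl i) ^ 2 := by
    rw [Finset.sum_eq_single i]
    · rw [lag_eval_inl lam hlam, if_pos rfl, map_one, one_mul]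
    · intro k _ hk
      rw [lag_eval_inl lam hlam, if_neg hk.symm, map_zero, zero_mul]
    · intro h; exact absurd (Finset.mem_univ _) h
  rw [h1] at h
  have h2 : rename Sum.inr (gp lam i) =
      - ∑ b, C ((lag lam i).eval (lam (Sum.inr b))) *
        (X (Sum.inr b) : MvPolynomial (Fin c ⊕ β) ℂ) ^ 2 := by
    simp [gp]
  rw [h2, sub_neg_eq_add]
  exact h

/-- The products of the `gp lam i` are not squares. -/
lemma gp_not_isSquare [DecidableEq β] (b₁ b₂ : β) (hb : b₁ ≠ b₂)
    (S : Finset (Fin c)) (hS : S.Nonempty) :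
    ¬ IsSquare (∏ i ∈ S, gp lam i) := by
  classical
  rintro ⟨h, hh⟩
  obtain ⟨i₀, hi₀⟩ := hS
  let ψ : MvPolynomial β ℂ →ₐ[ℂ] Polynomial ℂ :=
    aeval (fun b => if b = b₁ then 1 else if b = b₂ then Polynomial.X else 0)
  let u : Fin c → ℂ := fun i => (lag lam i).eval (lam (Sum.inr b₁))
  let v : Fin c → ℂ := fun i => (lag lam i).eval (lam (Sum.inr b₂))
  have hψ : ∀ i, ψ (gp lam i) = - (Polynomial.C (u i) + Polynomial.C (v i) * Polynomial.X ^ 2) := by
    intro i
    simp only [gp, map_neg, map_sum, map_mul, map_pow, ψ, aeval_X, neg_inj]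
    rw [← Finset.add_sum_erase _ _ (Finset.mem_univ b₁), if_pos rfl,
      ← Finset.add_sum_erase _ _ (Finset.mem_erase.2 ⟨hb.symm, Finset.mem_univ b₂⟩),
      if_neg hb.symm, if_pos rfl, Finset.sum_eq_zero]
    · simp only [add_zero, one_pow, mul_one, u, v]
      rw [← algebraMap_eq, AlgHom.commutes, AlgHom.commutes]
      rfl
    · intro b hb'
      rw [Finset.mem_erase, Finset.mem_erase] at hb'
      rw [if_neg hb'.2.1, if_neg hb'.1, zero_pow two_ne_zero, mul_zero]
  obtain ⟨T, hT⟩ := IsAlgClosed.exists_pow_nat_eq (-(u i₀) / v i₀) (n := 2) (by norm_num)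
  have hv : v i₀ ≠ 0 := lag_ne_zero lam hlam i₀ b₂
  have hu : u i₀ ≠ 0 := lag_ne_zero lam hlam i₀ b₁
  have hT0 : T ≠ 0 := by
    rintro rfl
    rw [zero_pow two_ne_zero] at hT
    exact div_ne_zero (neg_ne_zero.2 hu) hv hT.symm
  have hroot : u i₀ + v i₀ * T ^ 2 = 0 := by
    rw [hT]; field_simp; ring
  have hP := congrArg ψ hh
  rw [map_prod, map_mul, ← Finset.mul_prod_erase S _ hi₀] at hP
  simp only [hψ] at hP
  set Q : Polynomial ℂ := ∏ i ∈ S.erase i₀,
    -(Polynomial.C (u i) + Polynomial.C (v i) * Polynomial.X ^ 2) with hQ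
  have hH : (ψ h).eval T = 0 := by
    have := congrArg (Polynomial.eval T) hP
    simp only [Polynomial.eval_mul, Polynomial.eval_neg, Polynomial.eval_add, Polynomial.eval_C,
      Polynomial.eval_pow, Polynomial.eval_X, hroot, neg_zero, zero_mul] at this
    exact mul_self_eq_zero.1 this.symm
  have hD := congrArg (fun p => Polynomial.eval T (Polynomial.derivative p)) hP
  simp only [Polynomial.derivative_mul, Polynomial.derivative_neg, Polynomial.derivative_add,
    Polynomial.derivative_C, Polynomial.derivative_X_pow, Polynomial.eval_mul, Polynomial.eval_neg,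
    Polynomial.eval_add, Polynomial.eval_C, Polynomial.eval_pow, Polynomial.eval_X, hroot, hH,
    neg_zero, zero_mul, mul_zero, add_zero, zero_add, Nat.cast_ofNat] at hD
  have hQT : Q.eval T = 0 := by
    have h3 : -(v i₀ * (2 * T)) ≠ 0 :=
      neg_ne_zero.2 (mul_ne_zero hv (mul_ne_zero two_ne_zero hT0))
    rcases mul_eq_zero.1 hD with h4 | h4
    · exfalso; apply h3; rw [← h4]; simp
    · exact h4
  rw [hQ, Polynomial.eval_prod, Finset.prod_eq_zero_iff] at hQT
  obtain ⟨i, hi, hi'⟩ := hQT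
  simp only [Polynomial.eval_neg, Polynomial.eval_add, Polynomial.eval_mul, Polynomial.eval_C,
    Polynomial.eval_pow, Polynomial.eval_X, neg_eq_zero] at hi'
  apply lag_ratio lam hlam b₁ b₂ hb i i₀ (Finset.ne_of_mem_erase hi)
  change u i * v i₀ = u i₀ * v i
  linear_combination v i₀ * hi' - v i * hroot

/-- normal form modulo the ideal -/
def HasNF (f : MvPolynomial (Fin c ⊕ β) ℂ) : Prop :=
  ∃ h : Finset (Fin c) → MvPolynomial β ℂ,
    f - ∑ S, rename Sum.inr (h S) * ∏ i ∈ S, X (Sum.inl i) ∈ fermatIdeal c lam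

omit hlam in
lemma HasNF.add {f g : MvPolynomial (Fin c ⊕ β) ℂ} (hf : HasNF lam f) (hg : HasNF lam g) :
    HasNF lam (f + g) := by
  obtain ⟨h, hh⟩ := hf
  obtain ⟨k, hk⟩ := hg
  refine ⟨h + k, ?_⟩
  have : f + g - ∑ S, rename Sum.inr ((h + k) S) * ∏ i ∈ S, X (Sum.inl i) =
      (f - ∑ S, rename Sum.inr (h S) * ∏ i ∈ S, X (Sum.inl i)) +
      (g - ∑ S, rename Sum.inr (k S) * ∏ i ∈ S, X (Sum.inl i)) := by
    simp only [Pi.add_apply, map_add, add_mul, Finset.sum_add_distrib]
    ring
  rw [this]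
  exact add_mem hh hk

omit hlam in
lemma HasNF.single (r : MvPolynomial β ℂ) (S : Finset (Fin c)) :
    HasNF lam (rename Sum.inr r * ∏ i ∈ S, X (Sum.inl i)) := by
  classical
  refine ⟨Pi.single S r, ?_⟩
  rw [Finset.sum_eq_single S]
  · rw [Pi.single_eq_same, sub_self]; exact zero_mem _
  · intro T _ hT
    rw [Pi.single_eq_of_ne hT, map_zero, zero_mul]
  · intro h; exact absurd (Finset.mem_univ _) h

omit hlam in
lemma HasNF.congr {f g : MvPolynomial (Fin c ⊕ β) ℂ} (hf : HasNF lam f)
    (hfg : g - f ∈ fermatIdeal c lam) : HasNF lam g := by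
  obtain ⟨h, hh⟩ := hf
  refine ⟨h, ?_⟩
  have := add_mem hfg hh
  rwa [sub_add_sub_cancel] at this

omit hlam in
lemma HasNF.sum {κ : Type*} (s : Finset κ) (f : κ → MvPolynomial (Fin c ⊕ β) ℂ)
    (hf : ∀ i ∈ s, HasNF lam (f i)) : HasNF lam (∑ i ∈ s, f i) := by
  classical
  induction s using Finset.induction_on with
  | empty =>
    refine ⟨0, ?_⟩
    simp
  | insert i s hi ih =>
    rw [Finset.sum_insert hi]
    exact (hf i (Finset.mem_insert_self _ _)).add lam
      (ih fun j hj => hf j (Finset.mem_insert_of_mem hj))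

lemma hasNF_single_mul (r : MvPolynomial β ℂ) (S : Finset (Fin c)) (k : Fin c ⊕ β) :
    HasNF lam (rename Sum.inr r * (∏ i ∈ S, X (Sum.inl i)) * X k) := by
  classical
  rcases k with k | b
  · by_cases hk : k ∈ S
    · refine (HasNF.single lam (r * gp lam k) (S.erase k)).congr lam ?_
      rw [← Finset.mul_prod_erase S _ hk, map_mul]
      have : rename Sum.inr r * (X (Sum.inl k) * ∏ i ∈ S.erase k, X (Sum.inl i)) * X (Sum.inl k) -
          rename Sum.inr r * rename Sum.inr (gp lam k) * ∏ i ∈ S.erase k, X (Sum.inl i) =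
          (rename Sum.inr r * ∏ i ∈ S.erase k, X (Sum.inl i)) *
            (X (Sum.inl k) ^ 2 - rename Sum.inr (gp lam k)) := by ring
      rw [this]
      exact Ideal.mul_mem_left _ _ (sq_sub_mem lam hlam k)
    · refine (HasNF.single lam r (insert k S)).congr lam ?_
      rw [Finset.prod_insert hk]
      have : rename Sum.inr r * (∏ i ∈ S, X (Sum.inl i)) * X (Sum.inl k) -
          rename Sum.inr r * (X (Sum.inl k) * ∏ i ∈ S, X (Sum.inl i)) = 0 := by ring
      rw [this]
      exact zero_mem _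
  · refine (HasNF.single lam (r * X b) S).congr lam ?_
    have : rename Sum.inr r * (∏ i ∈ S, X (Sum.inl i)) * X (Sum.inr b) -
        rename Sum.inr (r * X b) * ∏ i ∈ S, X (Sum.inl i) = 0 := by
      rw [map_mul, rename_X]; ring
    rw [this]
    exact zero_mem _

lemma hasNF (f : MvPolynomial (Fin c ⊕ β) ℂ) : HasNF lam f := by
  induction f using MvPolynomial.induction_on with
  | C a =>
    have := HasNF.single lam (c := c) (C a : MvPolynomial β ℂ) ∅
    simpa using this
  | add p q hp hq => exact hp.add lam hq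
  | mul_X p k hp =>
    obtain ⟨h, hh⟩ := hp
    have h1 : HasNF lam ((∑ S, rename Sum.inr (h S) * ∏ i ∈ S, X (Sum.inl i)) * X k) := by
      rw [Finset.sum_mul]
      exact HasNF.sum lam _ _ fun S _ => hasNF_single_mul lam hlam (h S) S k
    refine h1.congr lam ?_
    rw [← sub_mul]
    exact Ideal.mul_mem_right _ _ hh

/-- The ideal is prime (form with a chosen splitting of the coordinates). -/
theorem fermatIdeal_isPrime_sum [DecidableEq β] (b₁ b₂ : β) (hb : b₁ ≠ b₂) :
    (fermatIdeal c lam).IsPrime := by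
  classical
  let R := MvPolynomial β ℂ
  let K := FractionRing (MvPolynomial β ℂ)
  let L := AlgebraicClosure (FractionRing (MvPolynomial β ℂ))
  have hRL : Function.Injective (algebraMap (MvPolynomial β ℂ) L) := by
    rw [IsScalarTower.algebraMap_eq (MvPolynomial β ℂ) (FractionRing (MvPolynomial β ℂ)) L]
    exact (algebraMap (FractionRing (MvPolynomial β ℂ)) L).injective.comp
      (IsFractionRing.injective (MvPolynomial β ℂ) _)
  have hsq : ∀ i : Fin c, ∃ s : L, s ^ 2 = algebraMap (MvPolynomial β ℂ) L (gp lam i) := fun i =>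
    IsAlgClosed.exists_pow_nat_eq _ (by norm_num)
  choose s hs using hsq
  let φ : MvPolynomial (Fin c ⊕ β) ℂ →ₐ[ℂ] L :=
    aeval (Sum.elim s (fun b => algebraMap (MvPolynomial β ℂ) L (X b)))
  have hφr : ∀ r : MvPolynomial β ℂ, φ (rename Sum.inr r) = algebraMap (MvPolynomial β ℂ) L r := by
    intro r
    have : φ.comp (rename Sum.inr) = IsScalarTower.toAlgHom ℂ (MvPolynomial β ℂ) L := by
      ext b
      simp [φ]
    exact congrArg (fun g : MvPolynomial β ℂ →ₐ[ℂ] L => g r) this
  have hφX : ∀ i, φ (X (Sum.inl i)) = s i := fun i => by simp [φ]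
  have hli : LinearIndependent K (fun S : Finset (Fin c) => ∏ i ∈ S, s i) := by
    have hgal : IsGalois K L := inferInstance
    refine sqrt_indep (fun i => algebraMap (MvPolynomial β ℂ) K (gp lam i)) s ?_ ?_
    · intro i
      rw [hs, ← IsScalarTower.algebraMap_apply]
    · intro S hS hsqr
      obtain ⟨y, hy⟩ := hsqr
      rw [← map_prod, ← pow_two] at hy
      obtain ⟨h, rfl⟩ := IsIntegrallyClosed.exists_algebraMap_eq_of_isIntegral_pow
        (R := MvPolynomial β ℂ) (K := K) (x := y) (n := 2) (by norm_num)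
        (by rw [← hy]; exact isIntegral_algebraMap)
      rw [← map_pow] at hy
      have := IsFractionRing.injective (MvPolynomial β ℂ) K hy
      exact gp_not_isSquare lam hlam b₁ b₂ hb S hS ⟨h, by rw [this, pow_two]⟩
  have hle : fermatIdeal c lam ≤ RingHom.ker φ := by
    rw [fermatIdeal, Ideal.span_le]
    rintro _ ⟨j, rfl⟩
    change φ (quad lam j) = 0
    have h1 : quad lam (j : ℕ) = (∑ i : Fin c, C (lam (Sum.inl i) ^ (j : ℕ)) *
        (X (Sum.inl i) ^ 2 - rename Sum.inr (gp lam i))) +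
        rename Sum.inr (∑ i : Fin c, C (lam (Sum.inl i) ^ (j : ℕ)) * gp lam i +
          ∑ b, C (lam (Sum.inr b) ^ (j : ℕ)) * X b ^ 2) := by
      rw [quad, Fintype.sum_sum_type]
      simp only [mul_sub, Finset.sum_sub_distrib, map_add, map_sum, map_mul, rename_C, map_pow,
        rename_X]
      ring
    have h2 : (∑ i : Fin c, C (lam (Sum.inl i) ^ (j : ℕ)) * gp lam i +
          ∑ b, C (lam (Sum.inr b) ^ (j : ℕ)) * X b ^ 2 : MvPolynomial β ℂ) = 0 := by
      have h3 : ∑ i : Fin c, C (lam (Sum.inl i) ^ (j : ℕ)) * gp lam i =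
          - ∑ b, C (lam (Sum.inr b) ^ (j : ℕ)) * (X b : MvPolynomial β ℂ) ^ 2 := by
        simp only [gp, mul_neg, Finset.sum_neg_distrib, neg_inj, Finset.mul_sum]
        rw [Finset.sum_comm]
        refine Finset.sum_congr rfl fun b _ => ?_
        rw [← sum_lag lam hlam j j.2 (lam (Sum.inr b)), map_sum, Finset.sum_mul]
        refine Finset.sum_congr rfl fun i _ => ?_
        rw [← mul_assoc, ← map_mul]
      rw [h3, neg_add_cancel]
    rw [h1, h2, map_zero, add_zero, map_sum]
    refine Finset.sum_eq_zero fun i _ => ?_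
    rw [map_mul, map_sub, map_pow φ (X (Sum.inl i)) 2, hφX, hφr, hs, sub_self, mul_zero]
  have hker : fermatIdeal c lam = RingHom.ker φ := by
    apply le_antisymm hle
    intro f hf
    obtain ⟨h, hh⟩ := hasNF lam hlam f
    have h1 := (RingHom.mem_ker).1 (hle hh)
    rw [RingHom.mem_ker] at hf
    rw [map_sub, hf, zero_sub, neg_eq_zero, map_sum] at h1
    have h2 : ∑ S, (algebraMap (MvPolynomial β ℂ) K (h S)) • ∏ i ∈ S, s i = 0 := by
      rw [← h1]
      refine Finset.sum_congr rfl fun S _ => ?_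
      rw [map_mul, hφr, map_prod, Algebra.smul_def, ← IsScalarTower.algebraMap_apply]
      congr 1
      exact Finset.prod_congr rfl fun i _ => (hφX i).symm
    have h3 : ∀ S, h S = 0 := fun S => by
      have := Fintype.linearIndependent_iff.1 hli _ h2 S
      exact (map_eq_zero_iff _ (IsFractionRing.injective (MvPolynomial β ℂ) K)).1 this
    simp only [h3, map_zero, zero_mul, Finset.sum_const_zero, sub_zero] at hh
    exact hh
  rw [hker]
  exact RingHom.ker_isPrime φ

end prime

end Pool.Agent.MP37c606
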