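import Mathlib

/-!
# The universal relation between structure constants of smoothable algebras

We consider algebras of rank `12` with `6` generators `t 0, …, t 5` such that
`1, t a, t 0 * t (b+1)` is a basis.
-/

set_option autoImplicit false

open MvPolynomial

namespace Pool.Agent.MP37c606

/-- Index type of the quadratic monomials outside the basis: `none` is `t₀²`, and `some {a,b}` is
`t_{a+1} t_{b+1}`.  It has `16` elements. -/
abbrev J : Type := Option (Sym2 (Fin 5))

/-- Index type of the basis `1, t a, t 0 * t (b+1)`.  It has `12` elements. -/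
abbrev BI : Type := Option (Fin 6 ⊕ Fin 5)

section defs
variable {S : Type*} [CommRing S]

/-- the quadratic basis monomials `t₀ t_{b+1}` -/
def um (t : Fin 6 → S) (b : Fin 5) : S := t 0 * t b.succ

/-- the quadratic monomials outside of the basis -/
def mon (t : Fin 6 → S) : J → S
  | none => t 0 * t 0
  | some e => Sym2.lift ⟨fun a b => t a.succ * t b.succ, fun _ _ => mul_comm _ _⟩ e

/-- the basis -/
def bas (t : Fin 6 → S) : BI → S
  | none => 1
  | some (Sum.inl a) => t a
  | some (Sum.inr b) => um t b

@[simp] lemma mon_none (t : Fin 6 → S) : mon t none = t 0 * t 0 := rfl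
@[simp] lemma mon_some (t : Fin 6 → S) (a b : Fin 5) :
    mon t (some s(a, b)) = t a.succ * t b.succ := rfl
@[simp] lemma bas_none (t : Fin 6 → S) : bas t none = 1 := rfl
@[simp] lemma bas_inl (t : Fin 6 → S) (a : Fin 6) : bas t (some (Sum.inl a)) = t a := rfl
@[simp] lemma bas_inr (t : Fin 6 → S) (b : Fin 5) :
    bas t (some (Sum.inr b)) = t 0 * t b.succ := rfl

variable {S' : Type*} [CommRing S']

lemma map_mon (f : S →+* S') (t : Fin 6 → S) (e : J) : f (mon t e) = mon (fun a => f (t a)) e := by
  rcases e with _ | e
  · simp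
  · induction e using Sym2.ind with
    | _ a b => simp

lemma map_bas (f : S →+* S') (t : Fin 6 → S) (i : BI) : f (bas t i) = bas (fun a => f (t a)) i := by
  rcases i with _ | i | i <;> simp

end defs

section points

variable {S : Type*} [CommRing S]

/-- The matrix of the coordinates of the basis candidates in the algebra `S^12` -/
def M (t : Fin 6 → BI → S) : Matrix BI BI S := Matrix.of fun i p => bas t i p

/-- structure constants -/
noncomputable def sc (t : Fin 6 → BI → S) (e : J) : BI → S := Matrix.vecMul (mon t e) (M t)⁻¹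

lemma vecMul_M (t : Fin 6 → BI → S) (a : BI → S) :
    Matrix.vecMul a (M t) = ∑ i, a i • bas t i := by
  ext p
  simp [Matrix.vecMul, dotProduct, M, Finset.sum_apply]

lemma sc_unique (t : Fin 6 → BI → S) (h : IsUnit (M t).det) (e : J) (a : BI → S)
    (ha : mon t e = ∑ i, a i • bas t i) : sc t e = a := by
  rw [sc, ha, ← vecMul_M, Matrix.vecMul_vecMul, Matrix.mul_nonsing_inv _ h, Matrix.vecMul_one]

lemma sc_spec (t : Fin 6 → BI → S) (h : IsUnit (M t).det) (e : J) :
    mon t e = ∑ i, sc t e i • bas t i := by
  rw [← vecMul_M, sc, Matrix.vecMul_vecMul, Matrix.nonsing_inv_mul _ h, Matrix.vecMul_one]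

variable {S' : Type*} [CommRing S']

lemma mon_apply (t : Fin 6 → BI → S) (e : J) (p : BI) : mon t e p = mon (fun a => t a p) e :=
  map_mon (Pi.evalRingHom (fun _ : BI => S) p) t e

lemma bas_apply (t : Fin 6 → BI → S) (i : BI) (p : BI) : bas t i p = bas (fun a => t a p) i :=
  map_bas (Pi.evalRingHom (fun _ : BI => S) p) t i

lemma M_map (f : S →+* S') (t : Fin 6 → BI → S) :
    M (fun a p => f (t a p)) = f.mapMatrix (M t) := by
  ext i p
  simp only [M, Matrix.of_apply, RingHom.mapMatrix_apply, Matrix.map_apply]
  rw [bas_apply, bas_apply, map_bas]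

lemma det_M_map (f : S →+* S') (t : Fin 6 → BI → S) :
    (M (fun a p => f (t a p))).det = f (M t).det := by
  rw [M_map, RingHom.map_det]

lemma sc_map (f : S →+* S') (t : Fin 6 → BI → S) (h : IsUnit (M t).det) (e : J) :
    sc (fun a p => f (t a p)) e = fun i => f (sc t e i) := by
  apply sc_unique
  · rw [det_M_map]; exact h.map f
  · ext p
    have := congrArg (fun v : BI → S => f (v p)) (sc_spec t h e)
    simp only [Finset.sum_apply, Pi.smul_apply, smul_eq_mul, map_sum, map_mul] at this ⊢
    rw [mon_apply, ← map_mon, ← mon_apply, this]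
    refine Finset.sum_congr rfl fun i _ => ?_
    rw [bas_apply, bas_apply, map_bas]

end points

/-- Cardinality of the index type of the top structure constants. -/
lemma card_J : Fintype.card J = 16 := by
  simp [J, Sym2.card, Nat.choose]

/-- The coordinate ring of the space of `6`-tuples of elements of `ℂ^12`. -/
abbrev R₀ : Type := MvPolynomial (Fin 6 × BI) ℂ

lemma exists_phi : ∃ Φ : MvPolynomial (J × Fin 5) ℂ, Φ ≠ 0 ∧
    ∀ (S : Type) [CommRing S] [Nontrivial S] [Algebra ℂ S] (t : Fin 6 → BI → S),
      IsUnit (M t).det →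
        aeval (fun p : J × Fin 5 => sc t p.1 (some (Sum.inr p.2))) Φ = 0 := by
  classical
  let tu : Fin 6 → BI → R₀ := fun a p => X (a, p)
  set D : R₀ := (M tu).det with hD
  by_cases hD0 : D = 0
  · refine ⟨1, one_ne_zero, ?_⟩
    intro S _ _ _ t ht
    exfalso
    let f : R₀ →ₐ[ℂ] S := aeval (fun q => t q.1 q.2)
    have h1 : (fun a p => f.toRingHom (tu a p)) = t := by
      ext a p
      simp [f, tu]
    have h2 := det_M_map f.toRingHom tu
    rw [h1, ← hD, hD0, map_zero] at h2
    rw [h2] at ht
    exact not_isUnit_zero ht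
  · let S₀ := Localization.Away D
    have hinj : Function.Injective (algebraMap R₀ S₀) :=
      IsLocalization.injective S₀ (powers_le_nonZeroDivisors_of_noZeroDivisors hD0)
    have : IsDomain S₀ := IsLocalization.isDomain_localization
      (powers_le_nonZeroDivisors_of_noZeroDivisors hD0)
    let ts : Fin 6 → BI → S₀ := fun a p => algebraMap R₀ S₀ (tu a p)
    have hts : IsUnit (M ts).det := by
      rw [det_M_map]
      exact IsLocalization.Away.algebraMap_isUnit D
    let x : J × Fin 5 → S₀ := fun p => sc ts p.1 (some (Sum.inr p.2))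
    have hnot : ¬ AlgebraicIndependent ℂ x := by
      intro hx
      have : Algebra.IsAlgebraic R₀ S₀ :=
        IsLocalization.isAlgebraic (R := R₀) (S := S₀) (Submonoid.powers D)
      have : FaithfulSMul R₀ S₀ := (faithfulSMul_iff_algebraMap_injective R₀ S₀).2 hinj
      have h1 := _root_.trdeg_add_eq ℂ R₀ (A := S₀)
      rw [trdeg_eq_zero (R := R₀) (A := S₀), add_zero] at h1
      have h2 := hx.lift_cardinalMk_le_trdeg
      rw [← h1, MvPolynomial.trdeg_of_isDomain] at h2
      simp only [Cardinal.mk_fintype, Cardinal.lift_natCast, Nat.cast_le] at h2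
      simp [Fintype.card_prod, Sym2.card, Nat.choose] at h2
    rw [algebraicIndependent_iff] at hnot
    push Not at hnot
    obtain ⟨Φ, hΦ, hΦ0⟩ := hnot
    refine ⟨Φ, hΦ0, ?_⟩
    intro S _ _ _ t ht
    let f : R₀ →ₐ[ℂ] S := aeval (fun q => t q.1 q.2)
    have hf : (fun a p => f.toRingHom (tu a p)) = t := by
      ext a p
      simp [f, tu]
    have hfD : IsUnit (f D) := by
      have h2 := det_M_map f.toRingHom tu
      rw [hf] at h2
      rw [h2] at ht
      exact ht
    let g : S₀ →ₐ[ℂ] S := IsLocalization.liftAlgHom (M := Submonoid.powers D) (f := f) (by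
      rintro ⟨y, n, rfl⟩
      simpa using hfD.pow n)
    have hg : ∀ z : R₀, g (algebraMap R₀ S₀ z) = f z := fun z => by
      simp [g]
    have hgt : (fun a p => g.toRingHom (ts a p)) = t := by
      ext a p
      have := congrFun (congrFun hf a) p
      simpa [ts, hg] using this
    have hsc : ∀ p : J × Fin 5, sc t p.1 (some (Sum.inr p.2)) = g (x p) := by
      intro p
      have := sc_map g.toRingHom ts hts p.1
      rw [hgt] at this
      rw [this]
      rfl
    have : (fun p : J × Fin 5 => sc t p.1 (some (Sum.inr p.2))) = fun p => g (x p) := funext hsc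
    rw [this, ← MvPolynomial.comp_aeval_apply, hΦ, map_zero]

end Pool.Agent.MP37c606
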