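import Mathlib
import Pool.Agent.Lib.MP_37c606_ag.Phi

/-!
# The quadratic forms obtained by restricting the diagonal quadrics to a linear space
-/

set_option autoImplicit false

open MvPolynomial

namespace Pool.Agent.MP37c606

/-- an enumeration of `J` -/
noncomputable def ε : J ≃ Fin 16 := Fintype.equivOfCardEq (by rw [card_J, Fintype.card_fin])

section coef

variable {R : Type*} [CommRing R]

/-- coefficients (with respect to `mon`) of a quadratic form given by a matrix -/
def coefQ (S : Fin 6 → Fin 6 → R) : J → R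
  | none => S 0 0
  | some e => ∑ p : Fin 5 × Fin 5 with s(p.1, p.2) = e, S p.1.succ p.2.succ

/-- coefficients (with respect to `um`) of a quadratic form given by a matrix -/
def coefR (S : Fin 6 → Fin 6 → R) (b : Fin 5) : R := S 0 b.succ + S b.succ 0

lemma sum_form {𝒜 : Type*} [CommRing 𝒜] [Algebra R 𝒜] (S : Fin 6 → Fin 6 → R) (t : Fin 6 → 𝒜) :
    ∑ a, ∑ b, S a b • (t a * t b) =
      ∑ e, coefQ S e • mon t e + ∑ b, coefR S b • (t 0 * t b.succ) := by
  rw [Fintype.sum_option]
  have h1 : ∑ e : Sym2 (Fin 5), coefQ S (some e) • mon t (some e) =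
      ∑ a : Fin 5, ∑ b : Fin 5, S a.succ b.succ • (t a.succ * t b.succ) := by
    rw [← Fintype.sum_prod_type', ← Finset.sum_fiberwise Finset.univ
      (fun p : Fin 5 × Fin 5 => s(p.1, p.2))]
    refine Finset.sum_congr rfl fun e _ => ?_
    simp only [coefQ, Finset.sum_smul]
    refine Finset.sum_congr rfl fun p hp => ?_
    rw [Finset.mem_filter] at hp
    rw [← hp.2, mon_some]
  rw [h1]
  simp only [coefR, add_smul, Finset.sum_add_distrib]
  rw [Fin.sum_univ_succ, Fin.sum_univ_succ (fun b => S 0 b • (t 0 * t b))]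
  have h2 : ∑ i : Fin 5, ∑ b, S i.succ b • (t i.succ * t b) =
      ∑ i : Fin 5, S i.succ 0 • (t 0 * t i.succ) +
      ∑ a : Fin 5, ∑ b : Fin 5, S a.succ b.succ • (t a.succ * t b.succ) := by
    rw [← Finset.sum_add_distrib]
    refine Finset.sum_congr rfl fun i _ => ?_
    rw [Fin.sum_univ_succ, mul_comm (t i.succ) (t 0)]
  rw [h2]
  simp only [coefQ, mon_none]
  abel

end coef

section forms

variable {ι : Type} [Fintype ι] (lam : ι → ℂ) {R : Type*} [CommRing R] [Algebra ℂ R]

/-- The Gram matrix of the restriction of the `e`-th quadric to the span of `V`. -/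
noncomputable def gram (V : Fin 6 → ι → R) (e : J) (a b : Fin 6) : R :=
  ∑ i, algebraMap ℂ R (lam i ^ (ε e : ℕ)) * (V a i * V b i)

/-- matrix of the `mon`-coefficients of the restricted quadrics -/
noncomputable def Qm (V : Fin 6 → ι → R) : Matrix J J R := Matrix.of fun e => coefQ (gram lam V e)

/-- matrix of the `um`-coefficients of the restricted quadrics -/
noncomputable def Rm (V : Fin 6 → ι → R) : Matrix J (Fin 5) R := Matrix.of fun e => coefR (gram lam V e)

variable {R' : Type*} [CommRing R'] [Algebra ℂ R']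

lemma map_gram (f : R →ₐ[ℂ] R') (V : Fin 6 → ι → R) (e : J) (a b : Fin 6) :
    f (gram lam V e a b) = gram lam (fun a i => f (V a i)) e a b := by
  simp only [gram, map_sum, map_mul, AlgHom.commutes]

lemma map_Qm (f : R →ₐ[ℂ] R') (V : Fin 6 → ι → R) :
    (Qm lam V).map f = Qm lam (fun a i => f (V a i)) := by
  ext e e'
  simp only [Qm, Matrix.map_apply, Matrix.of_apply]
  rcases e' with _ | e'
  · simp only [coefQ, map_gram]
  · simp only [coefQ, map_sum, map_gram]

lemma map_Rm (f : R →ₐ[ℂ] R') (V : Fin 6 → ι → R) :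
    (Rm lam V).map f = Rm lam (fun a i => f (V a i)) := by
  ext e b
  simp only [Rm, Matrix.map_apply, Matrix.of_apply, coefR, map_add, map_gram]

lemma det_Qm_map (f : R →ₐ[ℂ] R') (V : Fin 6 → ι → R) :
    (Qm lam (fun a i => f (V a i))).det = f (Qm lam V).det := by
  rw [← map_Qm, ← AlgHom.mapMatrix_apply, AlgHom.map_det]

/-- the top structure constants -/
noncomputable def Atop (V : Fin 6 → ι → R) : Matrix J (Fin 5) R := -((Qm lam V)⁻¹ * Rm lam V)

lemma map_Atop (f : R →ₐ[ℂ] R') (V : Fin 6 → ι → R) (h : IsUnit (Qm lam V).det) :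
    (Atop lam V).map f = Atop lam (fun a i => f (V a i)) := by
  have h1 : ((Qm lam V)⁻¹).map f = (Qm lam (fun a i => f (V a i)))⁻¹ := by
    symm
    apply Matrix.inv_eq_left_inv
    rw [← map_Qm, ← Matrix.map_mul, Matrix.nonsing_inv_mul _ h]
    ext i j
    simp [Matrix.one_apply, apply_ite f]
  have h2 : ((Qm lam V)⁻¹ * Rm lam V).map f = ((Qm lam V)⁻¹).map f * (Rm lam V).map f :=
    Matrix.map_mul
  rw [Atop, Atop, ← h1, ← map_Rm]
  ext i j
  have h3 := congrFun (congrFun h2 i) j
  rw [Matrix.map_apply] at h3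
  rw [Matrix.map_apply, Matrix.neg_apply, Matrix.neg_apply, map_neg, h3]

end forms

end Pool.Agent.MP37c606
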