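import Mathlib
import Pool.Agent.Lib.MP_37c606_ag.Phi

/-!
# Spanning by `1, t a, t 0 * t (b+1)`
-/

set_option autoImplicit false

open MvPolynomial

namespace Pool.Agent.MP37c606

/-- The matrix controlling the reduction of cubic monomials -/
def Gmat {R : Type*} [CommRing R] (A : J → Fin 5 → R) : Matrix (Fin 5) (Fin 5) R :=
  Matrix.of fun b γ => ∑ β, A none β * A (some s(β, b)) γ

section

variable {𝒜 : Type*} [CommRing 𝒜] [Algebra ℂ 𝒜]

lemma span_bas_eq_top (t : Fin 6 → 𝒜) (ht : Algebra.adjoin ℂ (Set.range t) = ⊤)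
    (a : J → BI → ℂ) (ha : ∀ e, mon t e = ∑ i, a e i • bas t i)
    (hdet : IsUnit (1 - Gmat (fun e b => a e (some (Sum.inr b)))).det) :
    Submodule.span ℂ (Set.range (bas t)) = ⊤ := by
  classical
  set W := Submodule.span ℂ (Set.range (bas t)) with hW
  have hbas : ∀ i, bas t i ∈ W := fun i => Submodule.subset_span ⟨i, rfl⟩
  have h1 : (1 : 𝒜) ∈ W := hbas none
  have hta : ∀ i, t i ∈ W := fun i => hbas (some (Sum.inl i))
  have hum : ∀ b : Fin 5, t 0 * t b.succ ∈ W := fun b => hbas (some (Sum.inr b))
  have hmon : ∀ e, mon t e ∈ W := fun e => by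
    rw [ha]
    exact Submodule.sum_mem _ fun i _ => Submodule.smul_mem _ _ (hbas i)
  have hquad : ∀ i j, t i * t j ∈ W := by
    intro i j
    refine Fin.cases ?_ (fun i' => ?_) i
    · refine Fin.cases ?_ (fun j' => ?_) j
      · exact hmon none
      · exact hum j'
    · refine Fin.cases ?_ (fun j' => ?_) j
      · rw [mul_comm]; exact hum i'
      · exact hmon (some s(i', j'))
  -- multiplying the relation for `e` by `t k`
  have hred : ∀ (k : Fin 6) (e : J), t k * mon t e -
      ∑ b, a e (some (Sum.inr b)) • (t k * (t 0 * t b.succ)) ∈ W := by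
    intro k e
    rw [ha e, Fintype.sum_option, Fintype.sum_sum_type, mul_add, mul_add, Finset.mul_sum,
      Finset.mul_sum]
    simp only [mul_smul_comm, bas_inr, bas_none, bas_inl, mul_one]
    rw [← add_assoc, add_sub_cancel_right]
    refine add_mem (Submodule.smul_mem _ _ (hta k)) ?_
    exact Submodule.sum_mem _ fun i _ => Submodule.smul_mem _ _ (hquad k i)
  -- the cubic monomials modulo `W`
  let q : 𝒜 →ₗ[ℂ] 𝒜 ⧸ W := W.mkQ
  have hq : ∀ x, q x = 0 ↔ x ∈ W := fun x => by
    simp [q]
  let y : Fin 5 → 𝒜 ⧸ W := fun b => q (t 0 * (t 0 * t b.succ))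
  have hz : ∀ c b : Fin 5, q (t c.succ * (t 0 * t b.succ)) =
      ∑ γ, a (some s(c, b)) (some (Sum.inr γ)) • y γ := by
    intro c b
    have h := (hq _).2 (hred 0 (some s(c, b)))
    rw [map_sub, sub_eq_zero, map_sum] at h
    simp only [map_smul, mon_some] at h
    rw [← h]
    congr 1
    ring
  have hy : ∀ b, y b = ∑ γ, Gmat (fun e b => a e (some (Sum.inr b))) b γ • y γ := by
    intro b
    have h := (hq _).2 (hred b.succ none)
    rw [map_sub, sub_eq_zero, map_sum] at h
    simp only [map_smul, mon_none] at h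
    have h2 : y b = q (t b.succ * (t 0 * t 0)) := by
      simp only [y]
      congr 1
      ring
    rw [h2, h]
    simp only [Gmat, Matrix.of_apply, Finset.sum_smul]
    rw [Finset.sum_comm]
    refine Finset.sum_congr rfl fun β _ => ?_
    have h3 : t b.succ * (t 0 * t β.succ) = t β.succ * (t 0 * t b.succ) := by ring
    rw [h3, hz, Finset.smul_sum]
    refine Finset.sum_congr rfl fun γ _ => ?_
    rw [smul_smul]
  have hy0 : ∀ b, y b = 0 := by
    set G := Gmat (fun e b => a e (some (Sum.inr b))) with hG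
    have h4 : ∀ b, ∑ γ, (1 - G) b γ • y γ = 0 := by
      intro b
      simp only [Matrix.sub_apply, sub_smul, Finset.sum_sub_distrib]
      rw [← hy b, sub_eq_zero]
      simp [Matrix.one_apply]
    intro b
    have h5 : ∑ γ, ((1 - G)⁻¹ * (1 - G)) b γ • y γ = 0 := by
      simp only [Matrix.mul_apply, Finset.sum_smul]
      rw [Finset.sum_comm]
      refine Finset.sum_eq_zero fun c _ => ?_
      simp only [mul_smul]
      rw [← Finset.smul_sum, h4, smul_zero]
    rw [Matrix.nonsing_inv_mul _ hdet] at h5
    simpa [Matrix.one_apply] using h5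
  have hcub : ∀ (k : Fin 6) (b : Fin 5), t k * (t 0 * t b.succ) ∈ W := by
    intro k b
    refine Fin.cases ?_ (fun c => ?_) k
    · exact (hq _).1 (hy0 b)
    · rw [← hq, hz]
      exact Finset.sum_eq_zero fun γ _ => by rw [hy0, smul_zero]
  have hmul : ∀ (k : Fin 6) (w : 𝒜), w ∈ W → t k * w ∈ W := by
    intro k w hw
    refine Submodule.span_induction (p := fun w _ => t k * w ∈ W) ?_ ?_ ?_ ?_ hw
    · rintro _ ⟨i, rfl⟩
      rcases i with _ | i | b
      · rw [bas_none, mul_one]; exact hta k
      · exact hquad k i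
      · exact hcub k b
    · rw [mul_zero]; exact zero_mem _
    · intro u v _ _ hu hv
      rw [mul_add]; exact add_mem hu hv
    · intro c u _ hu
      rw [mul_smul_comm]; exact Submodule.smul_mem _ _ hu
  have hall : ∀ x : 𝒜, ∀ w ∈ W, x * w ∈ W := by
    intro x
    have hx : x ∈ Algebra.adjoin ℂ (Set.range t) := by rw [ht]; trivial
    induction hx using Algebra.adjoin_induction with
    | mem x hx =>
      obtain ⟨k, rfl⟩ := hx
      exact hmul k
    | algebraMap r =>
      intro w hw
      rw [← Algebra.smul_def]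
      exact Submodule.smul_mem _ _ hw
    | add x y _ _ hx hy =>
      intro w hw
      rw [add_mul]; exact add_mem (hx w hw) (hy w hw)
    | mul x y _ _ hx hy =>
      intro w hw
      rw [mul_assoc]; exact hx _ (hy w hw)
  rw [eq_top_iff]
  intro x _
  have := hall x 1 h1
  rwa [mul_one] at this

end

end Pool.Agent.MP37c606
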