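import Mathlib
import Pool.Agent.Lib.MP_37c606_ag.Forms
import Pool.Agent.Lib.MP_37c606_ag.Fermat
import Pool.Agent.Lib.MP_37c606_ag.Gram
import Pool.Agent.Lib.MP_37c606_ag.Defs

/-!
# Analysis of the fibres of the projection
-/

set_option autoImplicit false

open MvPolynomial

namespace Pool.Agent.MP37c606

variable {ι : Type} [Fintype ι] (lam : ι → ℂ)

/-- the linear terms in the restriction of the quadrics to `w + span V` -/
noncomputable def linc (V : Fin 6 → ι → ℂ) (w : ι → ℂ) (e : J) (a : Fin 6) : ℂ :=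
  ∑ i, lam i ^ (ε e : ℕ) * (2 * (w i * V a i))

/-- the constant terms in the restriction of the quadrics to `w + span V` -/
noncomputable def conc (w : ι → ℂ) (e : J) : ℂ := ∑ i, lam i ^ (ε e : ℕ) * (w i * w i)

section relations

variable {𝒜 : Type*} [CommRing 𝒜] [Algebra ℂ 𝒜]

lemma expand (t : Fin 6 → 𝒜) (V : Fin 6 → ι → ℂ) (w : ι → ℂ) (e : J) :
    ∑ i, lam i ^ (ε e : ℕ) • (algebraMap ℂ 𝒜 (w i) + ∑ a, V a i • t a) ^ 2 =
      ∑ a, ∑ b, gram lam V e a b • (t a * t b) + ∑ a, linc lam V w e a • t a +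
        conc lam w e • 1 := by
  have h1 : ∀ i, lam i ^ (ε e : ℕ) • (algebraMap ℂ 𝒜 (w i) + ∑ a, V a i • t a) ^ 2 =
      ∑ a, ∑ b, (lam i ^ (ε e : ℕ) * (V a i * V b i)) • (t a * t b) +
      ∑ a, (lam i ^ (ε e : ℕ) * (2 * (w i * V a i))) • t a +
      (lam i ^ (ε e : ℕ) * (w i * w i)) • 1 := by
    intro i
    have h2 : ∑ a, ∑ b, (lam i ^ (ε e : ℕ) * (V a i * V b i)) • (t a * t b) =
        lam i ^ (ε e : ℕ) • ((∑ a, V a i • t a) * (∑ b, V b i • t b)) := by
      rw [Finset.sum_mul_sum, Finset.smul_sum]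
      refine Finset.sum_congr rfl fun a _ => ?_
      rw [Finset.smul_sum]
      refine Finset.sum_congr rfl fun b _ => ?_
      rw [smul_mul_smul_comm, smul_smul]
    have h3 : ∑ a, (lam i ^ (ε e : ℕ) * (2 * (w i * V a i))) • t a =
        lam i ^ (ε e : ℕ) • (2 * (algebraMap ℂ 𝒜 (w i) * ∑ a, V a i • t a)) := by
      rw [Finset.mul_sum, Finset.mul_sum, Finset.smul_sum]
      refine Finset.sum_congr rfl fun a _ => ?_
      simp only [Algebra.smul_def, map_mul, map_ofNat]
      ring
    have h4 : (lam i ^ (ε e : ℕ) * (w i * w i)) • (1 : 𝒜) =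
        lam i ^ (ε e : ℕ) • (algebraMap ℂ 𝒜 (w i) * algebraMap ℂ 𝒜 (w i)) := by
      simp only [Algebra.smul_def, map_mul, mul_one]
    rw [h2, h3, h4, ← smul_add, ← smul_add]
    congr 1
    ring
  rw [Finset.sum_congr rfl fun i _ => h1 i, Finset.sum_add_distrib, Finset.sum_add_distrib]
  congr 1
  · congr 1
    · rw [Finset.sum_comm]
      refine Finset.sum_congr rfl fun a _ => ?_
      rw [Finset.sum_comm]
      refine Finset.sum_congr rfl fun b _ => ?_
      rw [← Finset.sum_smul]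
      rfl
    · rw [Finset.sum_comm]
      refine Finset.sum_congr rfl fun a _ => ?_
      rw [← Finset.sum_smul]
      rfl
  · rw [← Finset.sum_smul]
    rfl

/-- the structure constants in a fibre -/
noncomputable def acst (V : Fin 6 → ι → ℂ) (w : ι → ℂ) (e : J) : BI → ℂ
  | none => -(∑ e', (Qm lam V)⁻¹ e e' * conc lam w e')
  | some (Sum.inl a) => -(∑ e', (Qm lam V)⁻¹ e e' * linc lam V w e' a)
  | some (Sum.inr b) => Atop lam V e b

lemma mon_eq (t : Fin 6 → 𝒜) (V : Fin 6 → ι → ℂ) (w : ι → ℂ) (hQ : (Qm lam V).det ≠ 0)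
    (h : ∀ e, ∑ i, lam i ^ (ε e : ℕ) • (algebraMap ℂ 𝒜 (w i) + ∑ a, V a i • t a) ^ 2 = 0) (e : J) :
    mon t e = ∑ i, acst lam V w e i • bas t i := by
  have h1 : ∀ e, ∑ e', Qm lam V e e' • mon t e' + ∑ b, Rm lam V e b • (t 0 * t b.succ) +
      ∑ a, linc lam V w e a • t a + conc lam w e • 1 = 0 := by
    intro e
    rw [← h e, expand, sum_form]
    rfl
  have h2 : ∑ e', (Qm lam V)⁻¹ e e' • (∑ e'', Qm lam V e' e'' • mon t e'' +
      ∑ b, Rm lam V e' b • (t 0 * t b.succ) +
      ∑ a, linc lam V w e' a • t a + conc lam w e' • 1) = 0 :=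
    Finset.sum_eq_zero fun e' _ => by rw [h1, smul_zero]
  have h3 : ∑ e', (Qm lam V)⁻¹ e e' • ∑ e'', Qm lam V e' e'' • mon t e'' = mon t e := by
    simp only [Finset.smul_sum, smul_smul]
    rw [Finset.sum_comm]
    have h4 : ∀ e'', ∑ e', ((Qm lam V)⁻¹ e e' * Qm lam V e' e'') • mon t e'' =
        (1 : Matrix J J ℂ) e e'' • mon t e'' := by
      intro e''
      rw [← Finset.sum_smul, ← Matrix.nonsing_inv_mul _ (isUnit_iff_ne_zero.2 hQ), Matrix.mul_apply]
    rw [Finset.sum_congr rfl fun e'' _ => h4 e'']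
    simp [Matrix.one_apply]
  have h5 : ∑ e', (Qm lam V)⁻¹ e e' • ∑ b, Rm lam V e' b • (t 0 * t b.succ) =
      - ∑ b, Atop lam V e b • (t 0 * t b.succ) := by
    simp only [Finset.smul_sum, smul_smul]
    rw [Finset.sum_comm, ← Finset.sum_neg_distrib]
    refine Finset.sum_congr rfl fun b _ => ?_
    rw [← Finset.sum_smul, Atop, Matrix.neg_apply, Matrix.mul_apply, neg_smul, neg_neg]
  have h6 : ∑ e', (Qm lam V)⁻¹ e e' • ∑ a, linc lam V w e' a • t a =
      - ∑ a, acst lam V w e (some (Sum.inl a)) • t a := by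
    simp only [Finset.smul_sum, smul_smul]
    rw [Finset.sum_comm, ← Finset.sum_neg_distrib]
    refine Finset.sum_congr rfl fun b _ => ?_
    rw [← Finset.sum_smul, acst, neg_smul, neg_neg]
  have h7 : ∑ e', (Qm lam V)⁻¹ e e' • conc lam w e' • (1 : 𝒜) =
      - (acst lam V w e none • (1 : 𝒜)) := by
    simp only [smul_smul]
    rw [← Finset.sum_smul, acst, neg_smul, neg_neg]
  simp only [smul_add, Finset.sum_add_distrib] at h2
  rw [h3, h5, h6, h7] at h2
  rw [Fintype.sum_option, Fintype.sum_sum_type]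
  simp only [bas_none, bas_inl, bas_inr]
  have h8 : ∀ b, acst lam V w e (some (Sum.inr b)) = Atop lam V e b := fun b => rfl
  simp only [h8]
  linear_combination h2

end relations

/-! ### Consequences for the centre -/

lemma good_zero (V : Fin 6 → ι → ℂ) (hQ : (Qm lam V).det ≠ 0)
    (hG : (1 - Gmat (fun e b => Atop lam V e b)).det ≠ 0) (s : Fin 6 → ℂ)
    (h : ∀ e : J, ∑ i, lam i ^ (ε e : ℕ) * (∑ a, V a i * s a) ^ 2 = 0) : s = 0 := by
  classical
  have hmon : ∀ e, mon s e = ∑ b, Atop lam V e b * (s 0 * s b.succ) := by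
    intro e
    have h1 := mon_eq lam s V 0 hQ (fun e => by simpa using h e) e
    rw [h1, Fintype.sum_option, Fintype.sum_sum_type]
    have h2 : linc lam V 0 = fun _ _ => 0 := by
      funext e a; simp [linc]
    have h3 : conc lam (0 : ι → ℂ) = fun _ => 0 := by
      funext e; simp [conc]
    simp [acst, h2, h3]
  set G := Gmat (fun e b => Atop lam V e b) with hGdef
  let y : Fin 5 → ℂ := fun b => s 0 * (s 0 * s b.succ)
  have hy : ∀ b, y b = ∑ γ, G b γ * y γ := by
    intro b
    have h1 : y b = s b.succ * mon s none := by simp only [y, mon_none]; ring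
    rw [h1, hmon, Finset.mul_sum]
    have h2 : ∀ β : Fin 5, s b.succ * (Atop lam V none β * (s 0 * s β.succ)) =
        ∑ γ, Atop lam V none β * Atop lam V (some s(β, b)) γ * y γ := by
      intro β
      have h3 : s b.succ * (Atop lam V none β * (s 0 * s β.succ)) =
          Atop lam V none β * (s 0 * mon s (some s(β, b))) := by
        rw [mon_some]; ring
      rw [h3, hmon, Finset.mul_sum, Finset.mul_sum]
      refine Finset.sum_congr rfl fun γ _ => ?_
      simp only [y]
      ring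
    rw [Finset.sum_congr rfl fun β _ => h2 β, Finset.sum_comm]
    refine Finset.sum_congr rfl fun γ _ => ?_
    rw [← Finset.sum_mul]
    rfl
  have hy0 : y = 0 := by
    have h1 : (1 - G).mulVec y = 0 := by
      rw [Matrix.sub_mulVec, Matrix.one_mulVec, sub_eq_zero]
      funext b
      rw [hy b]
      rfl
    exact Matrix.eq_zero_of_mulVec_eq_zero hG h1
  have hy1 : ∀ b : Fin 5, s 0 * (s 0 * s b.succ) = 0 := fun b => congrFun hy0 b
  have hu : ∀ b : Fin 5, s 0 * s b.succ = 0 := by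
    intro b
    rcases mul_eq_zero.1 (hy1 b) with h | h
    · rw [h, zero_mul]
    · exact h
  have hm : ∀ e, mon s e = 0 := fun e => by
    rw [hmon]
    exact Finset.sum_eq_zero fun b _ => by rw [hu, mul_zero]
  funext a
  refine Fin.cases ?_ (fun b => ?_) a
  · have := hm none
    rw [mon_none] at this
    exact mul_self_eq_zero.1 this
  · have := hm (some s(b, b))
    rw [mon_some] at this
    exact mul_self_eq_zero.1 this

/-! ### The fibres -/

omit [Fintype ι] in
lemma mk_restr {r : ℕ} (I : Ideal (MvPolynomial ι ℂ)) (V : Fin r → ι → ℂ) (w : ι → ℂ)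
    (f : MvPolynomial ι ℂ) :
    (Ideal.Quotient.mk (I.map (restr V w))) (restr V w f) =
      aeval (fun i => algebraMap ℂ (FibreRing I V w) (w i) +
        ∑ a, V a i • (Ideal.Quotient.mk (I.map (restr V w)) (X a))) f := by
  have h : (Ideal.Quotient.mkₐ ℂ (I.map (restr V w))).comp (restr V w) =
      aeval (fun i => algebraMap ℂ (FibreRing I V w) (w i) +
        ∑ a, V a i • (Ideal.Quotient.mk (I.map (restr V w)) (X a))) := by
    apply MvPolynomial.algHom_ext
    intro i
    change (Ideal.Quotient.mk _) (restr V w (X i)) = _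
    rw [aeval_X]
    have h1 : restr V w (X i) = C (w i) + ∑ a, C (V a i) * X a := aeval_X _ _
    rw [h1, map_add, map_sum]
    simp only [map_mul]
    refine congrArg₂ _ rfl (Finset.sum_congr rfl fun a _ => ?_)
    exact (Algebra.smul_def (A := FibreRing I V w) (V a i) _).symm
  exact DFunLike.congr_fun h f

lemma fibre_rel {r : ℕ} (V : Fin r → ι → ℂ) (w : ι → ℂ) {j : ℕ} (hj : j < 16) :
    ∑ i, lam i ^ j • (algebraMap ℂ (FibreRing (fermatIdeal 16 lam) V w) (w i) +
        ∑ a, V a i • (Ideal.Quotient.mk ((fermatIdeal 16 lam).map (restr V w)) (X a))) ^ 2 = 0 := by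
  have h1 : (Ideal.Quotient.mk ((fermatIdeal 16 lam).map (restr V w)))
      (restr V w (quad lam j)) = 0 := by
    rw [Ideal.Quotient.eq_zero_iff_mem]
    exact Ideal.mem_map_of_mem _ (quad_mem lam hj)
  rw [mk_restr] at h1
  rw [← h1, quad, map_sum]
  refine Finset.sum_congr rfl fun i _ => ?_
  rw [map_mul, aeval_C, map_pow (aeval _) (X i), aeval_X, ← Algebra.smul_def]

omit [Fintype ι] in
lemma adjoin_fibre {r : ℕ} (I : Ideal (MvPolynomial ι ℂ)) (V : Fin r → ι → ℂ) (w : ι → ℂ) :
    Algebra.adjoin ℂ (Set.range fun a => (Ideal.Quotient.mk (I.map (restr V w)) (X a))) =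
      (⊤ : Subalgebra ℂ (FibreRing I V w)) := by
  have h1 := MvPolynomial.adjoin_range_X (R := ℂ) (σ := Fin r)
  have h2 := congrArg (Subalgebra.map (Ideal.Quotient.mkₐ ℂ (I.map (restr V w)))) h1
  rw [AlgHom.map_adjoin, ← Set.range_comp, Algebra.map_top] at h2
  have h3 : (Ideal.Quotient.mkₐ ℂ (I.map (restr V w))).range = ⊤ := by
    rw [AlgHom.range_eq_top]
    exact Ideal.Quotient.mkₐ_surjective _ _
  rw [h3] at h2
  exact h2

end Pool.Agent.MP37c606
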