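import Mathlib
import Pool.Agent.Lib.MP_37c606_ag.Phi

/-!
# Flat families over local domains and the universal relation
-/

set_option autoImplicit false

open MvPolynomial TensorProduct

namespace Pool.Agent.MP37c606

section local_family

variable {B : Type} [CommRing B] [IsLocalRing B] [Algebra ℂ B]
  {C : Type} [CommRing C] [Algebra ℂ C] [Algebra B C] [IsScalarTower ℂ B C]
  [Module.Finite B C] [Module.Flat B C] (x₀ : B →ₐ[ℂ] ℂ)
  {A : Type} [CommRing A] [Algebra ℂ A]

lemma mem_max_iff (b : B) (hloc : ∀ b ∈ IsLocalRing.maximalIdeal B, x₀ b = 0) :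
    b ∈ IsLocalRing.maximalIdeal B ↔ x₀ b = 0 := by
  refine ⟨hloc b, fun hb => ?_⟩
  rw [IsLocalRing.mem_maximalIdeal, mem_nonunits_iff]
  intro h
  have := h.map x₀
  rw [hb] at this
  exact not_isUnit_zero this

omit [IsLocalRing B] [IsScalarTower ℂ B C] [Module.Finite B C] [Module.Flat B C] in
lemma theta_smul (θ : C →ₐ[ℂ] A)
    (hθB : ∀ b : B, θ (algebraMap B C b) = algebraMap ℂ A (x₀ b)) (b : B) (z : C) :
    θ (b • z) = x₀ b • θ z := by
  rw [Algebra.smul_def, map_mul, hθB, ← Algebra.smul_def]

lemma family_linearIndependent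
    (hloc : ∀ b ∈ IsLocalRing.maximalIdeal B, x₀ b = 0)
    (θ : C →ₐ[ℂ] A) (hθB : ∀ b : B, θ (algebraMap B C b) = algebraMap ℂ A (x₀ b))
    {ι : Type} [Fintype ι] (v : ι → C) (hli : LinearIndependent ℂ (fun i => θ (v i))) :
    LinearIndependent B v := by
  have hθmax : ∀ z ∈ (IsLocalRing.maximalIdeal B) • (⊤ : Submodule B C), θ z = 0 := by
    intro z hz
    refine Submodule.smul_induction_on hz ?_ ?_
    · intro b hb n _
      rw [theta_smul x₀ θ hθB, hloc b hb, zero_smul]
    · intro y z hy hz
      rw [map_add, hy, hz, add_zero]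
  apply Module.IsLocalRing.linearIndependent_of_flat
  rw [Fintype.linearIndependent_iff]
  intro κ hκ
  have hsurj : Function.Surjective (algebraMap B (IsLocalRing.ResidueField B)) :=
    IsLocalRing.residue_surjective
  choose β hβ using fun i => hsurj (κ i)
  have h1 : TensorProduct.mk B (IsLocalRing.ResidueField B) C 1 (∑ i, β i • v i) = 0 := by
    rw [map_sum, ← hκ]
    refine Finset.sum_congr rfl fun i _ => ?_
    simp only [Function.comp_apply, TensorProduct.mk_apply, map_smul]
    rw [← hβ i, algebraMap_smul]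
  have h2 : (∑ i, β i • v i) ∈ (IsLocalRing.maximalIdeal B) • (⊤ : Submodule B C) := by
    have h2' := (LinearMap.mem_ker).2 h1
    have hk : LinearMap.ker (TensorProduct.mk B (IsLocalRing.ResidueField B) C 1) =
      (IsLocalRing.maximalIdeal B) • (⊤ : Submodule B C) :=
        LinearMap.ker_tensorProductMk (Q := C) (I := IsLocalRing.maximalIdeal B)
    rwa [hk] at h2'
  have h3 := hθmax _ h2
  rw [map_sum] at h3
  simp only [theta_smul x₀ θ hθB] at h3
  intro i
  have h4 := Fintype.linearIndependent_iff.1 hli (fun i => x₀ (β i)) h3 i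
  have h5 := (mem_max_iff x₀ _ hloc).2 h4
  rw [← hβ i]
  exact (IsLocalRing.residue_eq_zero_iff _).2 h5

omit [Module.Flat B C] in
lemma family_span
    (θ : C →ₐ[ℂ] A)
    (hker : ∀ z : C, θ z = 0 → z ∈ (IsLocalRing.maximalIdeal B) • (⊤ : Submodule B C))
    {ι : Type} [Fintype ι] (v : ι → C)
    (hsp : ⊤ ≤ Submodule.span ℂ (Set.range (fun i => θ (v i)))) :
    ⊤ ≤ Submodule.span B (Set.range v) := by
  apply Submodule.le_of_le_smul_of_le_jacobson_bot (I := IsLocalRing.maximalIdeal B)
    (Module.Finite.fg_top)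
  · rw [IsLocalRing.jacobson_eq_maximalIdeal _ bot_ne_top]
  · intro x _
    obtain ⟨g, hg⟩ := (Submodule.mem_span_range_iff_exists_fun ℂ).1 (hsp (x := θ x) trivial)
    have h1 : θ (x - ∑ i, (algebraMap ℂ B (g i)) • v i) = 0 := by
      rw [map_sub, map_sum, ← hg, sub_eq_zero]
      refine Finset.sum_congr rfl fun i _ => ?_
      rw [algebraMap_smul, map_smul]
    have h2 : x = (∑ i, (algebraMap ℂ B (g i)) • v i) +
        (x - ∑ i, (algebraMap ℂ B (g i)) • v i) := by abel
    rw [h2]
    apply Submodule.add_mem_sup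
    · exact Submodule.sum_mem _ fun i _ => Submodule.smul_mem _ _
        (Submodule.subset_span ⟨i, rfl⟩)
    · exact hker _ h1

/-- In a flat family of finite schemes over a local domain with étale geometric generic fibre,
the structure constants of the special fibre satisfy the universal relation. -/
lemma phi_of_local_family [IsDomain B]
    (hloc : ∀ b ∈ IsLocalRing.maximalIdeal B, x₀ b = 0)
    (θ : C →ₐ[ℂ] A) (hsurj : Function.Surjective θ)
    (hθB : ∀ b : B, θ (algebraMap B C b) = algebraMap ℂ A (x₀ b))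
    (hker : ∀ z : C, θ z = 0 → z ∈ (IsLocalRing.maximalIdeal B) • (⊤ : Submodule B C))
    (L : Type) [Field L] [IsSepClosed L] [Algebra ℂ L] [Algebra B L] [IsScalarTower ℂ B L]
    (hBL : Function.Injective (algebraMap B L))
    [Algebra.FormallyEtale L (L ⊗[B] C)]
    (t : Fin 6 → A) (hli : LinearIndependent ℂ (bas t))
    (hsp : ⊤ ≤ Submodule.span ℂ (Set.range (bas t)))
    (a : J → BI → ℂ) (ha : ∀ e, mon t e = ∑ i, a e i • bas t i)
    (Φ : MvPolynomial (J × Fin 5) ℂ)
    (hΦ : ∀ (S : Type) [CommRing S] [Nontrivial S] [Algebra ℂ S] (t : Fin 6 → BI → S),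
      IsUnit (M t).det →
        aeval (fun p : J × Fin 5 => sc t p.1 (some (Sum.inr p.2))) Φ = 0) :
    aeval (fun p : J × Fin 5 => a p.1 (some (Sum.inr p.2))) Φ = 0 := by
  classical
  choose c hc using fun i => hsurj (t i)
  have hbasc : ∀ i, θ (bas c i) = bas t i := fun i => by
    have := map_bas θ.toRingHom c i
    simp only [AlgHom.toRingHom_eq_coe, RingHom.coe_coe, hc] at this
    exact this
  have hmonc : ∀ e, θ (mon c e) = mon t e := fun e => by
    have := map_mon θ.toRingHom c e
    simp only [AlgHom.toRingHom_eq_coe, RingHom.coe_coe, hc] at this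
    exact this
  have hli' : LinearIndependent B (bas c) := by
    apply family_linearIndependent x₀ hloc θ hθB
    simpa only [hbasc] using hli
  have hsp' : ⊤ ≤ Submodule.span B (Set.range (bas c)) := by
    apply family_span θ hker
    simpa only [hbasc] using hsp
  let bB : Module.Basis BI B C := Module.Basis.mk hli' hsp'
  have hbB : ∀ i, bB i = bas c i := fun i => by simp [bB]
  let a' : J → BI → B := fun e i => bB.repr (mon c e) i
  have ha' : ∀ e, mon c e = ∑ i, a' e i • bas c i := fun e => by
    have := bB.sum_repr (mon c e)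
    simp only [hbB] at this
    exact this.symm
  have hred : ∀ e i, x₀ (a' e i) = a e i := by
    intro e
    have h1 := congrArg θ (ha' e)
    rw [hmonc, map_sum, ha] at h1
    simp only [theta_smul x₀ θ hθB, hbasc] at h1
    have h2 : ∑ i, (a e i - x₀ (a' e i)) • bas t i = 0 := by
      simp only [sub_smul, Finset.sum_sub_distrib]
      rw [h1, sub_self]
    intro i
    have := Fintype.linearIndependent_iff.1 hli _ h2 i
    rw [sub_eq_zero] at this
    exact this.symm
  -- the geometric generic fibre
  let bE : Module.Basis BI L (L ⊗[B] C) := bB.baseChange L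
  have hbE : ∀ i, bE i = 1 ⊗ₜ[B] bas c i := fun i => by
    simp only [bE, Module.Basis.baseChange_apply, hbB]
  have hfin : Module.Finite L (L ⊗[B] C) := Module.Finite.of_basis bE
  let g : (L ⊗[B] C) ≃ₐ[L] (PrimeSpectrum (L ⊗[B] C) → L) :=
    Algebra.FormallyEtale.equivPiOfIsSepClosed L (L ⊗[B] C)
  have hfinP : Finite (PrimeSpectrum (L ⊗[B] C)) := by
    have : IsArtinianRing (L ⊗[B] C) := isArtinian_of_tower L inferInstance
    infer_instance
  have := Fintype.ofFinite (PrimeSpectrum (L ⊗[B] C))
  have hcard : Fintype.card BI = Fintype.card (PrimeSpectrum (L ⊗[B] C)) := by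
    have h1 := Module.finrank_eq_card_basis bE
    have h2 := g.toLinearEquiv.finrank_eq
    rw [Module.finrank_fintype_fun_eq_card] at h2
    rw [← h1, h2]
  let ρ : BI ≃ PrimeSpectrum (L ⊗[B] C) := Fintype.equivOfCardEq hcard
  let G : (L ⊗[B] C) ≃ₐ[L] (BI → L) :=
    g.trans (AlgEquiv.piCongrLeft L (fun _ => L) ρ).symm
  let T : Fin 6 → BI → L := fun i => G (1 ⊗ₜ[B] c i)
  let H : C →+* (BI → L) := G.toRingHom.comp
    (Algebra.TensorProduct.includeRight (R := B) (A := L) (B := C)).toRingHom
  have hH : ∀ z, H z = G (1 ⊗ₜ[B] z) := fun _ => rfl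
  have hHsmul : ∀ (b : B) (z : C), H (b • z) = algebraMap B L b • H z := by
    intro b z
    rw [hH, hH, ← map_smul]
    congr 1
    rw [TensorProduct.tmul_smul, algebraMap_smul]
  have hbasT : ∀ i, bas T i = H (bas c i) := fun i => (map_bas H c i).symm
  have hmonT : ∀ e, mon T e = H (mon c e) := fun e => (map_mon H c e).symm
  have hdet : IsUnit (M T).det := by
    have h1 : LinearIndependent L (fun i => bas T i) := by
      have h2 : (fun i => bas T i) = fun i => G.toLinearEquiv (bE i) := by
        funext i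
        rw [hbasT, hH, hbE]
        rfl
      rw [h2]
      exact (bE.map G.toLinearEquiv).linearIndependent
    have h3 : IsUnit (M T) := Matrix.linearIndependent_rows_iff_isUnit.1 h1
    exact (Matrix.isUnit_iff_isUnit_det _).1 h3
  have hscT : ∀ e, sc T e = fun i => algebraMap B L (a' e i) := by
    intro e
    apply sc_unique T hdet
    rw [hmonT, ha' e, map_sum]
    refine Finset.sum_congr rfl fun i _ => ?_
    rw [hHsmul, hbasT]
  have h1 := hΦ L T hdet
  simp only [hscT] at h1
  have h2 : (fun p : J × Fin 5 => algebraMap B L (a' p.1 (some (Sum.inr p.2)))) =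
      fun p => (IsScalarTower.toAlgHom ℂ B L) (a' p.1 (some (Sum.inr p.2))) := rfl
  rw [h2, ← MvPolynomial.comp_aeval_apply] at h1
  have h3 : aeval (fun p : J × Fin 5 => a' p.1 (some (Sum.inr p.2))) Φ = 0 := by
    apply hBL
    rw [map_zero]
    exact h1
  have h4 := congrArg x₀ h3
  rw [MvPolynomial.comp_aeval_apply, map_zero] at h4
  simpa only [hred] using h4

end local_family

end Pool.Agent.MP37c606
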