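import Mathlib
import Pool.Agent.Lib.MP_37c606_ag.LocalFamily
import Pool.Agent.Lib.MP_37c606_ag.Defs

/-!
# Smoothable algebras and the universal relation
-/

set_option autoImplicit false

open MvPolynomial TensorProduct

namespace Pool.Agent.MP37c606

section

variable {B : Type} [CommRing B] [Algebra ℂ B] (𝔭 : Ideal B) [𝔭.IsPrime]
  {C : Type} [CommRing C] [Algebra B C]
  [Module.Finite B C] [Module.Flat B C] (x₀ : B →ₐ[ℂ] ℂ)
  {B' : Type} [CommRing B'] [Algebra B B'] [IsLocalization.AtPrime B' 𝔭] [IsLocalRing B']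
  [Algebra ℂ B'] [IsScalarTower ℂ B B']
  {A : Type} [CommRing A] [Algebra ℂ A] [Algebra B A]

lemma phi_of_family [IsDomain B']
    (h𝔭 : ∀ b : B, b ∈ 𝔭 ↔ x₀ b = 0)
    (x' : B' →ₐ[ℂ] ℂ) (hx' : ∀ b : B, x' (algebraMap B B' b) = x₀ b)
    (hBA : ∀ b : B, algebraMap B A b = algebraMap ℂ A (x₀ b))
    (π : C →ₐ[B] A)
    (hπ : Function.Surjective π)
    (hker : ∀ z : C, π z = 0 → z ∈ 𝔭.map (algebraMap B C))
    (K : Type) [Field K] [Algebra B K]
    (hE : Algebra.Etale K (K ⊗[B] C))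
    (L : Type) [Field L] [IsSepClosed L] [Algebra ℂ L] [Algebra B L] [Algebra K L]
    [IsScalarTower B K L] [Algebra B' L] [IsScalarTower B B' L] [IsScalarTower ℂ B' L]
    (hBL : Function.Injective (algebraMap B' L))
    (t : Fin 6 → A) (hli : LinearIndependent ℂ (bas t))
    (hsp : ⊤ ≤ Submodule.span ℂ (Set.range (bas t)))
    (a : J → BI → ℂ) (ha : ∀ e, mon t e = ∑ i, a e i • bas t i)
    (Φ : MvPolynomial (J × Fin 5) ℂ)
    (hΦ : ∀ (S : Type) [CommRing S] [Nontrivial S] [Algebra ℂ S] (t : Fin 6 → BI → S),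
      IsUnit (M t).det →
        aeval (fun p : J × Fin 5 => sc t p.1 (some (Sum.inr p.2))) Φ = 0) :
    aeval (fun p : J × Fin 5 => a p.1 (some (Sum.inr p.2))) Φ = 0 := by
  classical
  let fB : B' →ₐ[B] A :=
    { (algebraMap ℂ A).comp x'.toRingHom with
      commutes' := fun b => by
        change algebraMap ℂ A (x' (algebraMap B B' b)) = _
        rw [hx', hBA] }
  have hfB : ∀ b, fB b = algebraMap ℂ A (x' b) := fun _ => rfl
  let θ₀ : B' ⊗[B] C →ₐ[B] A := Algebra.TensorProduct.productMap fB π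
  have hθ₀ : ∀ (b : B') (c : C), θ₀ (b ⊗ₜ c) = algebraMap ℂ A (x' b) * π c := fun b c => by
    exact Algebra.TensorProduct.productMap_apply_tmul fB π b c
  let θ : B' ⊗[B] C →ₐ[ℂ] A :=
    { θ₀.toRingHom with
      commutes' := fun z => by
        change θ₀ (algebraMap ℂ (B' ⊗[B] C) z) = _
        rw [Algebra.TensorProduct.algebraMap_apply, hθ₀, map_one, mul_one, AlgHom.commutes]
        rfl }
  have hθ : ∀ (b : B') (c : C), θ (b ⊗ₜ c) = algebraMap ℂ A (x' b) * π c := hθ₀
  have hmax : ∀ b ∈ IsLocalRing.maximalIdeal B', x' b = 0 := by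
    intro b hb
    obtain ⟨y, s, rfl⟩ := IsLocalization.exists_mk'_eq 𝔭.primeCompl b
    have hy : y ∈ 𝔭 := (IsLocalization.AtPrime.mk'_mem_maximal_iff B' 𝔭 y s).1 hb
    have h0 : x₀ y = 0 := (h𝔭 y).1 hy
    have h1 : x' (IsLocalization.mk' B' y s) * x' (algebraMap B B' s) = 0 := by
      rw [← map_mul, IsLocalization.mk'_spec, hx', h0]
    rcases mul_eq_zero.1 h1 with h | h
    · exact h
    · rw [hx'] at h
      exact absurd ((h𝔭 s).2 h) s.2
  have hmap : ∀ b ∈ 𝔭, algebraMap B B' b ∈ IsLocalRing.maximalIdeal B' := by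
    intro b hb
    rw [mem_max_iff x' _ hmax, hx', (h𝔭 b).1 hb]
  have hθB : ∀ b : B', θ (algebraMap B' (B' ⊗[B] C) b) = algebraMap ℂ A (x' b) := by
    intro b
    rw [Algebra.TensorProduct.algebraMap_apply, hθ, map_one, mul_one]
    rfl
  have hθsurj : Function.Surjective θ := by
    intro y
    obtain ⟨c, rfl⟩ := hπ y
    exact ⟨1 ⊗ₜ c, by rw [hθ, map_one, map_one, one_mul]⟩
  -- elements `1 ⊗ c` with `c ∈ 𝔭 C`
  have hone : ∀ y ∈ 𝔭.map (algebraMap B C), (1 : B') ⊗ₜ[B] y ∈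
      IsLocalRing.maximalIdeal B' • (⊤ : Submodule B' (B' ⊗[B] C)) := by
    intro y hy
    refine Submodule.span_induction (p := fun y _ => (1 : B') ⊗ₜ[B] y ∈
      IsLocalRing.maximalIdeal B' • (⊤ : Submodule B' (B' ⊗[B] C))) ?_ ?_ ?_ ?_ hy
    · rintro _ ⟨b, hb, rfl⟩
      have h1 : (1 : B') ⊗ₜ[B] (algebraMap B C b) = (algebraMap B B' b) •
          ((1 : B') ⊗ₜ[B] (1 : C)) := by
        rw [Algebra.algebraMap_eq_smul_one, TensorProduct.tmul_smul, algebraMap_smul]
      rw [h1]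
      exact Submodule.smul_mem_smul (hmap b hb) Submodule.mem_top
    · rw [TensorProduct.tmul_zero]; exact zero_mem _
    · intro y z _ _ hy hz
      rw [TensorProduct.tmul_add]; exact add_mem hy hz
    · intro y z _ hz
      have h1 : (1 : B') ⊗ₜ[B] (y • z) = ((1 : B') ⊗ₜ[B] y) * ((1 : B') ⊗ₜ[B] z) := by
        rw [Algebra.TensorProduct.tmul_mul_tmul, mul_one, smul_eq_mul]
      rw [h1]
      generalize (1 : B') ⊗ₜ[B] z = w at hz
      refine Submodule.smul_induction_on hz ?_ ?_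
      · intro b hb n _
        rw [mul_smul_comm]
        exact Submodule.smul_mem_smul hb Submodule.mem_top
      · intro u v hu hv
        rw [mul_add]
        exact add_mem hu hv
  have hθker : ∀ z : B' ⊗[B] C, θ z = 0 →
      z ∈ (IsLocalRing.maximalIdeal B') • (⊤ : Submodule B' (B' ⊗[B] C)) := by
    intro z hz
    obtain ⟨s, c, hsc⟩ : ∃ (s : 𝔭.primeCompl) (c : C), (algebraMap B B' s) • z = 1 ⊗ₜ[B] c := by
      have hloc : IsLocalizedModule 𝔭.primeCompl (TensorProduct.mk B B' C 1) :=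
        (isLocalizedModule_iff_isBaseChange 𝔭.primeCompl B' _).2
          (TensorProduct.isBaseChange B C B')
      obtain ⟨⟨c, s⟩, h⟩ := IsLocalizedModule.surj 𝔭.primeCompl (TensorProduct.mk B B' C 1) z
      refine ⟨s, c, ?_⟩
      rw [algebraMap_smul]
      exact h
    have h1 : θ ((algebraMap B B' s) • z) = 0 := by
      rw [theta_smul x' θ hθB, hz, smul_zero]
    rw [hsc, hθ, map_one, map_one, one_mul] at h1
    have h2 := hone c (hker c h1)
    rw [← hsc] at h2
    have hu : IsUnit (algebraMap B B' s) := IsLocalization.map_units B' s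
    obtain ⟨u, hu⟩ := hu
    rw [← hu] at h2
    have h3 := Submodule.smul_mem _ ((u⁻¹ : B'ˣ) : B') h2
    rwa [smul_smul, Units.inv_mul, one_smul] at h3
  have hEt : Algebra.FormallyEtale L (L ⊗[B'] (B' ⊗[B] C)) := by
    have h1 : Algebra.Etale L (L ⊗[K] (K ⊗[B] C)) := inferInstance
    have h2 : Algebra.Etale L (L ⊗[B] C) :=
      Algebra.Etale.of_equiv (Algebra.TensorProduct.cancelBaseChange B K L L C)
    have h3 : Algebra.Etale L (L ⊗[B'] (B' ⊗[B] C)) :=
      Algebra.Etale.of_equiv (Algebra.TensorProduct.cancelBaseChange B B' L L C).symm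
    infer_instance
  exact phi_of_local_family x' hmax θ hθsurj hθB hθker L hBL t hli hsp a ha Φ hΦ

end

lemma phi_of_family' {B : Type} [CommRing B] [IsDomain B] [Algebra ℂ B] (𝔭 : Ideal B) [𝔭.IsPrime]
    {C : Type} [CommRing C] [Algebra B C] [Module.Finite B C] [Module.Flat B C] (x₀ : B →ₐ[ℂ] ℂ)
    (B' : Type) [CommRing B'] [Algebra B B'] [IsLocalization.AtPrime B' 𝔭] [IsLocalRing B']
    [Algebra ℂ B'] [IsScalarTower ℂ B B'] [IsDomain B']
    {A : Type} [CommRing A] [Algebra ℂ A] [Algebra B A]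
    (h𝔭 : ∀ b : B, b ∈ 𝔭 ↔ x₀ b = 0)
    (hBA : ∀ b : B, algebraMap B A b = algebraMap ℂ A (x₀ b))
    (π : C →ₐ[B] A)
    (hπ : Function.Surjective π)
    (hker : ∀ z : C, π z = 0 → z ∈ 𝔭.map (algebraMap B C))
    (K : Type) [Field K] [Algebra B K]
    (hE : Algebra.Etale K (K ⊗[B] C))
    (L : Type) [Field L] [IsSepClosed L] [Algebra ℂ L] [Algebra B L] [Algebra K L]
    [IsScalarTower B K L] [IsScalarTower ℂ B L]
    (hBL : Function.Injective (algebraMap B L))
    (t : Fin 6 → A) (hli : LinearIndependent ℂ (bas t))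
    (hsp : ⊤ ≤ Submodule.span ℂ (Set.range (bas t)))
    (a : J → BI → ℂ) (ha : ∀ e, mon t e = ∑ i, a e i • bas t i)
    (Φ : MvPolynomial (J × Fin 5) ℂ)
    (hΦ : ∀ (S : Type) [CommRing S] [Nontrivial S] [Algebra ℂ S] (t : Fin 6 → BI → S),
      IsUnit (M t).det →
        aeval (fun p : J × Fin 5 => sc t p.1 (some (Sum.inr p.2))) Φ = 0) :
    aeval (fun p : J × Fin 5 => a p.1 (some (Sum.inr p.2))) Φ = 0 := by
  have hu : ∀ y : 𝔭.primeCompl, IsUnit (x₀ y) := fun y =>
    isUnit_iff_ne_zero.2 (fun h => y.2 ((h𝔭 _).2 h))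
  let x' : B' →ₐ[ℂ] ℂ :=
    IsLocalization.liftAlgHom (M := 𝔭.primeCompl) (f := x₀) hu
  have hx' : ∀ b : B, x' (algebraMap B B' b) = x₀ b := fun b =>
    IsLocalization.lift_eq (M := 𝔭.primeCompl) _ b
  have huL : ∀ y : 𝔭.primeCompl, IsUnit (algebraMap B L y) := fun y => by
    rw [isUnit_iff_ne_zero]
    intro h
    have h0 : (y : B) = 0 := hBL (by rw [h, map_zero])
    exact y.2 (by rw [h0]; exact 𝔭.zero_mem)
  let ιL : B' →ₐ[ℂ] L := IsLocalization.liftAlgHom (M := 𝔭.primeCompl)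
    (f := IsScalarTower.toAlgHom ℂ B L) huL
  have hιL : ∀ b : B, ιL (algebraMap B B' b) = algebraMap B L b := fun b =>
    IsLocalization.lift_eq (M := 𝔭.primeCompl) _ b
  have hιinj : Function.Injective ιL := by
    rw [injective_iff_map_eq_zero]
    intro b hb
    obtain ⟨y, s, rfl⟩ := IsLocalization.exists_mk'_eq 𝔭.primeCompl b
    have h1 : ιL (IsLocalization.mk' B' y s) *
        ιL (algebraMap B B' s) = algebraMap B L y := by
      rw [← map_mul, IsLocalization.mk'_spec, hιL]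
    rw [hb, zero_mul] at h1
    have h2 : y = 0 := hBL (by rw [← h1, map_zero])
    rw [h2, IsLocalization.mk'_zero]
  let algB'L : Algebra B' L := ιL.toRingHom.toAlgebra
  have htow : IsScalarTower B B' L :=
    IsScalarTower.of_algebraMap_eq (fun b => (hιL b).symm)
  have htow' : IsScalarTower ℂ B' L :=
    IsScalarTower.of_algebraMap_eq (fun b => (ιL.commutes b).symm)
  exact phi_of_family (B' := B') 𝔭 x₀ h𝔭 x' hx' hBA π
    hπ hker K hE L hιinj t hli hsp a ha Φ hΦ

/-- The universal relation holds for the structure constants of smoothable algebras. -/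
theorem phi_of_smoothable {A : Type} [CommRing A] [Algebra ℂ A] (hA : IsSmoothable A)
    (t : Fin 6 → A) (hli : LinearIndependent ℂ (bas t))
    (hsp : ⊤ ≤ Submodule.span ℂ (Set.range (bas t)))
    (a : J → BI → ℂ) (ha : ∀ e, mon t e = ∑ i, a e i • bas t i)
    (Φ : MvPolynomial (J × Fin 5) ℂ)
    (hΦ : ∀ (S : Type) [CommRing S] [Nontrivial S] [Algebra ℂ S] (t : Fin 6 → BI → S),
      IsUnit (M t).det →
        aeval (fun p : J × Fin 5 => sc t p.1 (some (Sum.inr p.2))) Φ = 0) :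
    aeval (fun p : J × Fin 5 => a p.1 (some (Sum.inr p.2))) Φ = 0 := by
  classical
  obtain ⟨B, _, _, _, C, _, _, _, _, _, _, x₀, hE, ⟨e⟩⟩ := hA
  have h𝔭 : (RingHom.ker x₀).IsPrime := RingHom.ker_isPrime x₀
  let algBA : Algebra B A := ((algebraMap ℂ A).comp x₀.toRingHom).toAlgebra
  have hBA : ∀ b : B, algebraMap B A b = algebraMap ℂ A (x₀ b) := fun _ => rfl
  let π₀ : C →ₐ[ℂ] A := (e.symm : _ →ₐ[ℂ] A).comp
    (Ideal.Quotient.mkₐ ℂ ((RingHom.ker x₀).map (algebraMap B C)))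
  have hπ₀ker : ∀ z, π₀ z = 0 ↔ z ∈ (RingHom.ker x₀).map (algebraMap B C) := by
    intro z
    have : π₀ z = e.symm (Ideal.Quotient.mk _ z) := rfl
    rw [this, EmbeddingLike.map_eq_zero_iff, Ideal.Quotient.eq_zero_iff_mem]
  have hπ₀ : Function.Surjective π₀ := e.symm.surjective.comp Ideal.Quotient.mk_surjective
  let π : C →ₐ[B] A :=
    { π₀.toRingHom with
      commutes' := fun b => by
        have h1 : b - algebraMap ℂ B (x₀ b) ∈ RingHom.ker x₀ := by
          rw [RingHom.mem_ker]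
          simp
        have h2 : π₀ (algebraMap B C (b - algebraMap ℂ B (x₀ b))) = 0 :=
          (hπ₀ker _).2 (Ideal.mem_map_of_mem _ h1)
        rw [map_sub, map_sub, sub_eq_zero] at h2
        change π₀ (algebraMap B C b) = _
        rw [h2, hBA, ← IsScalarTower.algebraMap_apply ℂ B C, AlgHom.commutes] }
  have hBL : Function.Injective (algebraMap B (AlgebraicClosure (FractionRing B))) := by
    rw [IsScalarTower.algebraMap_eq B (FractionRing B) (AlgebraicClosure (FractionRing B))]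
    exact (algebraMap (FractionRing B) _).injective.comp (IsFractionRing.injective B _)
  exact phi_of_family' (RingHom.ker x₀) x₀ (Localization.AtPrime (RingHom.ker x₀))
    (fun b => RingHom.mem_ker) hBA π
    hπ₀ (fun z hz => (hπ₀ker z).1 hz) (FractionRing B) hE (AlgebraicClosure (FractionRing B))
    hBL t hli hsp a ha Φ hΦ

end Pool.Agent.MP37c606
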