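import Mathlib
import Pool.Agent.Lib.MP_37c606_ag.Smoothable
import Pool.Agent.Lib.MP_37c606_ag.Gram

/-!
# Non-smoothability criterion
-/

set_option autoImplicit false

open MvPolynomial

namespace Pool.Agent.MP37c606

/-- Non-smoothability criterion. -/
theorem not_smoothable {𝒜 : Type} [CommRing 𝒜] [Algebra ℂ 𝒜] (t : Fin 6 → 𝒜)
    (ht : Algebra.adjoin ℂ (Set.range t) = ⊤)
    (a : J → BI → ℂ) (ha : ∀ e, mon t e = ∑ i, a e i • bas t i)
    (hdet : IsUnit (1 - Gmat (fun e b => a e (some (Sum.inr b)))).det)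
    (hfin : Module.finrank ℂ 𝒜 = 12)
    (Φ : MvPolynomial (J × Fin 5) ℂ)
    (hΦ : ∀ (S : Type) [CommRing S] [Nontrivial S] [Algebra ℂ S] (t : Fin 6 → BI → S),
      IsUnit (M t).det →
        aeval (fun p : J × Fin 5 => sc t p.1 (some (Sum.inr p.2))) Φ = 0)
    (hne : aeval (fun p : J × Fin 5 => a p.1 (some (Sum.inr p.2))) Φ ≠ 0) :
    ¬ IsSmoothable 𝒜 := by
  intro hsm
  have hsp := span_bas_eq_top t ht a ha hdet
  have hli : LinearIndependent ℂ (bas t) :=
    linearIndependent_of_top_le_span_of_card_eq_finrank hsp.ge (by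
      rw [hfin]; simp [BI])
  exact hne (phi_of_smoothable hsm t hli hsp.ge a ha Φ hΦ)

end Pool.Agent.MP37c606
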