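import Mathlib
import Pool.Agent.Lib.MP_37c606_ag.Fibre
import Pool.Agent.Lib.MP_37c606_ag.Spanning

/-!
# The fibres of length `12` are not smoothable
-/

set_option autoImplicit false

open MvPolynomial

namespace Pool.Agent.MP37c606

variable {ι : Type} [Fintype ι] (lam : ι → ℂ)

theorem fibre_not_smoothable (V : Fin 6 → ι → ℂ) (hQ : (Qm lam V).det ≠ 0)
    (hG : (1 - Gmat (fun e b => Atop lam V e b)).det ≠ 0)
    (Φ : MvPolynomial (J × Fin 5) ℂ)
    (hΦ : ∀ (S : Type) [CommRing S] [Nontrivial S] [Algebra ℂ S] (t : Fin 6 → BI → S),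
      IsUnit (M t).det →
        aeval (fun p : J × Fin 5 => sc t p.1 (some (Sum.inr p.2))) Φ = 0)
    (hne : eval (fun p => Atop lam V p.1 p.2) Φ ≠ 0) (w : ι → ℂ)
    (hfin : Module.finrank ℂ (FibreRing (fermatIdeal 16 lam) V w) = 12) :
    ¬ IsSmoothable (FibreRing (fermatIdeal 16 lam) V w) := by
  refine not_smoothable (fun a => Ideal.Quotient.mk _ (X a)) (adjoin_fibre _ V w)
    (acst lam V w) (fun e => mon_eq lam _ V w hQ (fun e => fibre_rel lam V w (ε e).2) e)
    (isUnit_iff_ne_zero.2 hG) hfin Φ hΦ ?_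
  rw [MvPolynomial.aeval_eq_eval]
  exact hne

end Pool.Agent.MP37c606
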