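import Mathlib

/-!
# Fewer than `n` equations vanishing at the origin of `ℂⁿ` have a common non-zero root
-/

set_option autoImplicit false

open MvPolynomial

namespace Pool.Agent.MP37c606

variable {σ : Type} [Fintype σ]

/-- translation of the variables -/
noncomputable def translate (a : σ → ℂ) : MvPolynomial σ ℂ ≃ₐ[ℂ] MvPolynomial σ ℂ :=
  AlgEquiv.ofAlgHom (aeval fun i => X i + C (a i)) (aeval fun i => X i - C (a i))
    (by ext i; simp) (by ext i; simp)

omit [Fintype σ] in
lemma comap_translate (a : σ → ℂ) :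
    (vanishingIdeal ℂ {(0 : σ → ℂ)}).comap (translate a).toRingEquiv =
      vanishingIdeal ℂ {a} := by
  ext p
  rw [Ideal.mem_comap, mem_vanishingIdeal_singleton_iff, mem_vanishingIdeal_singleton_iff]
  have h : (aeval (0 : σ → ℂ)).comp (translate a : MvPolynomial σ ℂ →ₐ[ℂ] MvPolynomial σ ℂ) =
      aeval a := by
    ext i
    simp [translate]
  rw [← h]
  rfl

lemma height_vanishingIdeal_zero :
    (Fintype.card σ : ℕ∞) ≤ (vanishingIdeal ℂ {(0 : σ → ℂ)} : Ideal (MvPolynomial σ ℂ)).height := by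
  have h1 : ringKrullDim (MvPolynomial σ ℂ) = Fintype.card σ := by
    rw [MvPolynomial.ringKrullDim_of_isNoetherianRing, ringKrullDim_eq_zero_of_field, zero_add,
      Nat.card_eq_fintype_card]
  have h2 : ringKrullDim (MvPolynomial σ ℂ) ≤
      ((vanishingIdeal ℂ {(0 : σ → ℂ)} : Ideal (MvPolynomial σ ℂ)).height : WithBot ℕ∞) := by
    rw [ringKrullDim_le_iff_isMaximal_height_le]
    intro m hm
    obtain ⟨x, rfl⟩ := isMaximal_iff_eq_vanishingIdeal_singleton.1 hm
    rw [← comap_translate x, RingEquiv.height_comap]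
  rw [h1] at h2
  exact_mod_cast h2

theorem exists_common_zero (s : Finset (MvPolynomial σ ℂ)) (h0 : ∀ f ∈ s, eval 0 f = 0)
    (hcard : s.card < Fintype.card σ) : ∃ x : σ → ℂ, x ≠ 0 ∧ ∀ f ∈ s, eval x f = 0 := by
  by_contra hcon
  push Not at hcon
  have hz : zeroLocus ℂ (Ideal.span (s : Set (MvPolynomial σ ℂ))) = {(0 : σ → ℂ)} := by
    rw [zeroLocus_span]
    ext x
    simp only [Finset.mem_coe, Set.mem_ofPred_eq, Set.mem_singleton_iff]
    constructor
    · intro h
      by_contra hx
      obtain ⟨f, hf, hf'⟩ := hcon x hx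
      exact hf' (h f hf)
    · rintro rfl
      exact h0
  have hrad : (Ideal.span (s : Set (MvPolynomial σ ℂ))).radical =
      vanishingIdeal ℂ {(0 : σ → ℂ)} := by
    rw [← hz, vanishingIdeal_zeroLocus_eq_radical]
  have hmin : vanishingIdeal ℂ {(0 : σ → ℂ)} ∈
      (Ideal.span (s : Set (MvPolynomial σ ℂ))).minimalPrimes := by
    refine ⟨⟨inferInstance, ?_⟩, ?_⟩
    · rw [← hrad]; exact Ideal.le_radical
    · rintro q ⟨hq, hle⟩ _
      rw [← hrad]
      exact (Ideal.IsPrime.radical_le_iff hq).2 hle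
  have h1 := Ideal.height_le_card_of_mem_minimalPrimes_span_finset hmin
  have h2 := height_vanishingIdeal_zero (σ := σ)
  have h3 := h2.trans h1
  have h4 : Fintype.card σ ≤ s.card := by exact_mod_cast h3
  omega

end Pool.Agent.MP37c606
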