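import Mathlib
import Pool.Agent.Lib.MP_37c606_ag.Fermat
import Pool.Agent.Lib.MP_37c606_ag.Krull
import Pool.Agent.Lib.MP_37c606_ag.Defs

/-!
# Primality, dimension and smoothness
-/

set_option autoImplicit false

open MvPolynomial

namespace Pool.Agent.MP37c606

section transport

variable {ι ι' : Type} [Fintype ι] [Fintype ι']

lemma rename_quad (e : ι ≃ ι') (lam : ι' → ℂ) (j : ℕ) :
    rename e (quad (lam ∘ e) j) = quad lam j := by
  simp only [quad, map_sum, map_mul, rename_C, map_pow, rename_X, Function.comp_apply]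
  exact Equiv.sum_comp e (fun i => C (lam i) ^ j * X i ^ 2)

lemma fermatIdeal_map (e : ι ≃ ι') (c : ℕ) (lam : ι' → ℂ) :
    (fermatIdeal c (lam ∘ e)).map (renameEquiv ℂ e).toRingEquiv.toRingHom =
      fermatIdeal c lam := by
  rw [fermatIdeal, fermatIdeal, Ideal.map_span, ← Set.range_comp]
  congr 2
  funext j
  exact rename_quad e lam j

end transport

section

variable {ι : Type} [Fintype ι] (c : ℕ) (lam : ι → ℂ)

/-- a splitting of the coordinates -/
lemma exists_split (hc : c + 2 ≤ Fintype.card ι) :
    Nonempty ((Fin c ⊕ Fin (Fintype.card ι - c)) ≃ ι) :=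
  ⟨Fintype.equivOfCardEq (by simp; omega)⟩

theorem fermatIdeal_isPrime (hlam : Function.Injective lam) (hc : c + 2 ≤ Fintype.card ι) :
    (fermatIdeal c lam).IsPrime := by
  obtain ⟨e⟩ := exists_split (ι := ι) c hc
  have h1 : (fermatIdeal c (lam ∘ e)).IsPrime :=
    fermatIdeal_isPrime_sum (lam ∘ e) (hlam.comp e.injective)
      (⟨0, by omega⟩ : Fin (Fintype.card ι - c)) ⟨1, by omega⟩ (by simp)
  rw [← fermatIdeal_map e c lam]
  exact Ideal.map_isPrime_of_equiv (renameEquiv ℂ e).toRingEquiv

/-- upper bound for the dimension -/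
lemma dim_le_sum {β : Type} [Fintype β] (lam : Fin c ⊕ β → ℂ) (hlam : Function.Injective lam) :
    ringKrullDim (MvPolynomial (Fin c ⊕ β) ℂ ⧸ fermatIdeal c lam) ≤ Fintype.card β := by
  classical
  let Q := MvPolynomial (Fin c ⊕ β) ℂ ⧸ fermatIdeal c lam
  let f : MvPolynomial β ℂ →ₐ[ℂ] Q := (Ideal.Quotient.mkₐ ℂ _).comp (rename Sum.inr)
  let _ := f.toRingHom.toAlgebra
  have hf : ∀ r, algebraMap (MvPolynomial β ℂ) Q r = f r := fun _ => rfl
  have htow : IsScalarTower ℂ (MvPolynomial β ℂ) Q :=
    IsScalarTower.of_algebraMap_eq (fun z => (f.commutes z).symm)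
  have hint : Algebra.IsIntegral (MvPolynomial β ℂ) Q := by
    rw [← integralClosure_eq_top_iff]
    rw [eq_top_iff]
    intro q _
    obtain ⟨p, rfl⟩ := Ideal.Quotient.mk_surjective q
    induction p using MvPolynomial.induction_on with
    | C a =>
      have : Ideal.Quotient.mk (fermatIdeal c lam) (C a) =
          algebraMap (MvPolynomial β ℂ) Q (C a) := by
        rw [hf]
        change _ = Ideal.Quotient.mk (fermatIdeal c lam) (rename Sum.inr (C a))
        rw [rename_C]
      rw [this]
      exact Subalgebra.algebraMap_mem _ _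
    | add p q hp hq => rw [map_add]; exact add_mem (hp trivial) (hq trivial)
    | mul_X p k hp =>
      rw [map_mul]
      refine mul_mem (hp trivial) ?_
      rcases k with i | b
      · rw [mem_integralClosure_iff]
        have h1 : (Ideal.Quotient.mk (fermatIdeal c lam) (X (Sum.inl i))) ^ 2 =
            algebraMap (MvPolynomial β ℂ) Q (gp lam i) := by
          rw [hf]
          have := sq_sub_mem lam hlam i
          rw [← Ideal.Quotient.eq_zero_iff_mem, map_sub, map_pow, sub_eq_zero] at this
          exact this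
        apply IsIntegral.of_pow (n := 2) (by norm_num)
        rw [h1]
        exact isIntegral_algebraMap
      · have : Ideal.Quotient.mk (fermatIdeal c lam) (X (Sum.inr b)) =
            algebraMap (MvPolynomial β ℂ) Q (X b) := by
          rw [hf]
          simp [f]
        rw [this]
        exact Subalgebra.algebraMap_mem _ _
  have h1 : ringKrullDim Q ≤ ringKrullDim (MvPolynomial β ℂ) := by
    refine Order.krullDim_le_of_strictMono
      (fun I : PrimeSpectrum Q => (⟨I.asIdeal.comap (algebraMap (MvPolynomial β ℂ) Q),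
        inferInstance⟩ : PrimeSpectrum (MvPolynomial β ℂ))) ?_
    intro I K h
    exact Ideal.IsIntegral.comap_lt_comap h
  refine h1.trans ?_
  rw [MvPolynomial.ringKrullDim_of_isNoetherianRing, ringKrullDim_eq_zero_of_field, zero_add,
    Nat.card_eq_fintype_card]

theorem fermat_dim (hlam : Function.Injective lam) (hc : c + 2 ≤ Fintype.card ι) :
    ringKrullDim (MvPolynomial ι ℂ ⧸ fermatIdeal c lam) = (Fintype.card ι - c : ℕ) := by
  apply le_antisymm
  · obtain ⟨e⟩ := exists_split (ι := ι) c hc
    have h1 := dim_le_sum c (lam ∘ e) (hlam.comp e.injective)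
    have e2 := Ideal.quotientEquiv (fermatIdeal c (lam ∘ e)) (fermatIdeal c lam)
      (renameEquiv ℂ e).toRingEquiv (fermatIdeal_map e c lam).symm
    rw [ringKrullDim_eq_of_ringEquiv e2] at h1
    simpa using h1
  · have h1 := Ideal.height_le_ringKrullDim_quotient_add_encard
      (p := (vanishingIdeal ℂ {(0 : ι → ℂ)} : Ideal (MvPolynomial ι ℂ)))
      (Set.range fun j : Fin c => quad lam j) (by
        rintro _ ⟨j, rfl⟩
        rw [SetLike.mem_coe, mem_vanishingIdeal_singleton_iff]
        simp [quad])
    have h2 := height_vanishingIdeal_zero (σ := ι)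
    have h3 : (Set.range fun j : Fin c => quad lam j).encard ≤ c := by
      rw [← Set.image_univ]
      refine (Set.encard_image_le _ _).trans ?_
      simp
    change _ ≤ ringKrullDim (MvPolynomial ι ℂ ⧸ fermatIdeal c lam) + _ at h1
    have hprime := fermatIdeal_isPrime c lam hlam hc
    generalize ringKrullDim (MvPolynomial ι ℂ ⧸ fermatIdeal c lam) = d at h1 ⊢
    have h4 : ((Fintype.card ι : ℕ) : WithBot ℕ∞) ≤ d + (c : ℕ) := by
      refine le_trans ?_ (h1.trans ?_)
      · exact_mod_cast h2
      · gcongr
        exact_mod_cast h3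
    induction d using WithBot.recBotCoe with
    | bot => simp at h4
    | coe x =>
      have h5 : ((Fintype.card ι : ℕ) : ℕ∞) ≤ x + (c : ℕ) := by exact_mod_cast h4
      have h6 : (((Fintype.card ι - c : ℕ) : ℕ) : ℕ∞) ≤ x := by
        rw [ENat.natCast_sub]
        exact tsub_le_iff_right.2 h5
      exact WithBot.coe_le_coe.2 h6

lemma grad_quad [DecidableEq ι] (x : ι → ℂ) (j : ℕ) :
    grad x (quad lam j) = fun i => 2 * (lam i ^ j * x i) := by
  funext i
  simp only [grad, quad, map_sum, Derivation.leibniz, pderiv_C, smul_zero, add_zero,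
    Derivation.leibniz_pow, pderiv_X, smul_eq_mul, map_mul]
  rw [Finset.sum_eq_single i]
  · simp only [Pi.single_eq_same, eval_C]
    simp
    ring
  · intro k _ hk
    simp [Pi.single_eq_of_ne hk]
  · intro h; exact absurd (Finset.mem_univ _) h

lemma grad_linearIndependent (hlam : Function.Injective lam) (x : ι → ℂ) (hx0 : x ≠ 0)
    (hx : ∀ j < c, eval x (quad lam j) = 0) :
    LinearIndependent ℂ (fun j : Fin c => grad x (quad lam j)) := by
  classical
  rw [Fintype.linearIndependent_iff]
  intro w hw
  by_contra hcon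
  push Not at hcon
  obtain ⟨j₀, hj₀⟩ := hcon
  -- the polynomial with coefficients `w`
  let p : Polynomial ℂ := ∑ j : Fin c, Polynomial.C (w j) * Polynomial.X ^ (j : ℕ)
  have hpcoeff : p.coeff j₀ = w j₀ := by
    simp only [p, Polynomial.finsetSum_coeff, Polynomial.coeff_C_mul, Polynomial.coeff_X_pow]
    rw [Finset.sum_eq_single j₀]
    · simp
    · intro j _ hj
      rw [if_neg (fun h => hj (Fin.ext h.symm)), mul_zero]
    · intro h; exact absurd (Finset.mem_univ _) h
  have hp0 : p ≠ 0 := by
    intro h
    rw [h, Polynomial.coeff_zero] at hpcoeff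
    exact hj₀ hpcoeff.symm
  have hpdeg : p.natDegree < c := by
    have hc : 0 < c := j₀.pos
    have : p.natDegree ≤ c - 1 := by
      apply Polynomial.natDegree_sum_le_of_forall_le
      intro j _
      refine (Polynomial.natDegree_C_mul_X_pow_le _ _).trans ?_
      have := j.2
      omega
    omega
  have hpx : ∀ i, p.eval (lam i) * x i = 0 := by
    intro i
    have h1 := congrFun hw i
    simp only [grad_quad, Finset.sum_apply, Pi.smul_apply, smul_eq_mul, Pi.zero_apply] at h1
    have h2 : p.eval (lam i) = ∑ j : Fin c, w j * lam i ^ (j : ℕ) := by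
      simp [p, Polynomial.eval_finsetSum]
    rw [h2, Finset.sum_mul]
    have h3 : (2 : ℂ) * ∑ j : Fin c, w j * lam i ^ (j : ℕ) * x i = 0 := by
      rw [← h1, Finset.mul_sum]
      refine Finset.sum_congr rfl fun j _ => ?_
      ring
    exact (mul_eq_zero.1 h3).resolve_left two_ne_zero
  obtain ⟨i₀, hi₀⟩ := Function.ne_iff.1 hx0
  rw [Pi.zero_apply] at hi₀
  -- the support of `x`
  let T : Finset ι := Finset.univ.filter fun i => x i ≠ 0
  have hT : T.card ≤ p.natDegree := by
    have h1 : (T.image lam).card ≤ p.roots.toFinset.card := by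
      apply Finset.card_le_card
      intro y hy
      rw [Finset.mem_image] at hy
      obtain ⟨i, hi, rfl⟩ := hy
      rw [Multiset.mem_toFinset, Polynomial.mem_roots hp0]
      simp only [T, Finset.mem_filter, Finset.mem_univ, true_and] at hi
      exact (mul_eq_zero.1 (hpx i)).resolve_right hi
    rw [Finset.card_image_of_injective _ hlam] at h1
    exact h1.trans ((Multiset.toFinset_card_le _).trans (Polynomial.card_roots' p))
  have hi₀T : i₀ ∈ T := by simpa [T] using hi₀
  let q : Polynomial ℂ := ∏ i ∈ T.erase i₀, (Polynomial.X - Polynomial.C (lam i))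
  have hqdeg : q.natDegree < c := by
    have h1 : q.natDegree ≤ (T.erase i₀).card := by
      rw [Polynomial.natDegree_prod_of_monic _ _ (fun i _ => Polynomial.monic_X_sub_C _)]
      simp
    have h2 : (T.erase i₀).card < T.card := Finset.card_erase_lt_of_mem hi₀T
    omega
  have h3 := sum_eval_eq_zero lam x hx q hqdeg
  rw [Finset.sum_eq_single i₀] at h3
  · rcases mul_eq_zero.1 h3 with h4 | h4
    · simp only [q, Polynomial.eval_prod, Finset.prod_eq_zero_iff, Polynomial.eval_sub,
        Polynomial.eval_X, Polynomial.eval_C] at h4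
      obtain ⟨i, hi, hi'⟩ := h4
      exact (Finset.ne_of_mem_erase hi) (hlam (sub_eq_zero.1 hi')).symm
    · exact hi₀ (pow_eq_zero_iff two_ne_zero |>.1 h4)
  · intro i _ hi
    by_cases hiT : i ∈ T
    · have : q.eval (lam i) = 0 := by
        simp only [q, Polynomial.eval_prod, Finset.prod_eq_zero_iff, Polynomial.eval_sub,
          Polynomial.eval_X, Polynomial.eval_C]
        exact ⟨i, Finset.mem_erase.2 ⟨hi, hiT⟩, sub_self _⟩
      rw [this, zero_mul]
    · have : x i = 0 := by simpa [T] using hiT
      rw [this]; ring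
  · intro h; exact absurd (Finset.mem_univ _) h

theorem fermat_jacobian (hlam : Function.Injective lam) (x : ι → ℂ) (hx0 : x ≠ 0)
    (hx : ∀ f ∈ fermatIdeal c lam, eval x f = 0) :
    Module.finrank ℂ (Submodule.span ℂ (grad x '' (fermatIdeal c lam : Set (MvPolynomial ι ℂ)))) =
      c := by
  classical
  have hspan : Submodule.span ℂ (grad x '' (fermatIdeal c lam : Set (MvPolynomial ι ℂ))) =
      Submodule.span ℂ (Set.range fun j : Fin c => grad x (quad lam j)) := by
    apply le_antisymm
    · rw [Submodule.span_le]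
      rintro _ ⟨f, hf, rfl⟩
      obtain ⟨h, rfl⟩ := (Ideal.mem_span_range_iff_exists_fun).1 hf
      have : grad x (∑ j : Fin c, h j * quad lam j) =
          ∑ j : Fin c, eval x (h j) • grad x (quad lam j) := by
        funext i
        simp only [grad, map_sum, Derivation.leibniz, smul_eq_mul, map_add, map_mul,
          Finset.sum_apply, Pi.smul_apply]
        refine Finset.sum_congr rfl fun j _ => ?_
        rw [hx _ (quad_mem lam j.2), zero_mul, add_zero]
      rw [SetLike.mem_coe, this]
      exact Submodule.sum_mem _ fun j _ => Submodule.smul_mem _ _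
        (Submodule.subset_span ⟨j, rfl⟩)
    · rw [Submodule.span_le]
      rintro _ ⟨j, rfl⟩
      exact Submodule.subset_span ⟨_, quad_mem lam j.2, rfl⟩
  rw [hspan, finrank_span_eq_card (grad_linearIndependent c lam hlam x hx0
    fun j hj => hx _ (quad_mem lam hj)), Fintype.card_fin]

end

end Pool.Agent.MP37c606
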