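import Mathlib
import Pool.Agent.Lib.MP_37c606_ag.Variety

/-!
# The intersection of `16` diagonal quadrics in `ℙ^575` is a smooth variety
-/

set_option autoImplicit false

open MvPolynomial

namespace Pool.Agent.MP37c606

attribute [local instance] MvPolynomial.gradedAlgebra

lemma fermat_homogeneous {ι : Type} [Fintype ι] (c : ℕ) (lam : ι → ℂ) :
    ∀ f ∈ fermatIdeal c lam, ∀ d : ℕ, homogeneousComponent d f ∈ fermatIdeal c lam := by
  intro f hf d
  have h : (fermatIdeal c lam).IsHomogeneous (homogeneousSubmodule ι ℂ) := by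
    apply Ideal.homogeneous_span
    rintro _ ⟨j, rfl⟩
    refine ⟨2, ?_⟩
    change IsHomogeneous (∑ i, C (lam i ^ (j : ℕ)) * X i ^ 2) 2
    exact IsHomogeneous.sum _ _ _ fun i _ => isHomogeneous_C_mul_X_pow _ _ _
  exact homogeneousComponent_mem_of_mem h hf d

/-- The parameters: `λ_i = i`. -/
noncomputable def lam₀ : Fin (575 + 1) → ℂ := fun i => ((i : ℕ) : ℂ)

lemma lam₀_injective : Function.Injective lam₀ := by
  intro i j h
  have h1 : ((i : ℕ) : ℂ) = ((j : ℕ) : ℂ) := h
  exact Fin.ext (Nat.cast_injective h1)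

theorem isSmoothProjVariety : IsSmoothProjVariety 575 559 (fermatIdeal 16 lam₀) where
  homogeneous := fermat_homogeneous 16 lam₀
  prime := fermatIdeal_isPrime 16 lam₀ lam₀_injective (by simp)
  dim := by
    rw [fermat_dim 16 lam₀ lam₀_injective (by simp)]
    simp
  smooth := fun x hx0 hx => by
    rw [fermat_jacobian 16 lam₀ lam₀_injective x hx0 hx]

end Pool.Agent.MP37c606
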