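import Mathlib
import Pool.Agent.Lib.MP_37c606_ag.Forms

/-!
# Every pair of coefficient matrices occurs for some linear space
-/

set_option autoImplicit false

open MvPolynomial

namespace Pool.Agent.MP37c606

lemma exists_vander (lam : J → ℂ) (hlam : Function.Injective lam) (y : J → ℂ) :
    ∃ z : J → ℂ, ∀ e, ∑ e', lam e' ^ (ε e : ℕ) * z e' = y e := by
  classical
  let A : Matrix J J ℂ := Matrix.of fun e e' => lam e' ^ (ε e : ℕ)
  have hA : A = ((Matrix.vandermonde (lam ∘ ε.symm)).transpose).submatrix ε ε := by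
    ext e e'
    simp [A, Matrix.vandermonde]
  have hdet : A.det ≠ 0 := by
    rw [hA, Matrix.det_submatrix_equiv_self, Matrix.det_transpose,
      Matrix.det_vandermonde_ne_zero_iff]
    exact hlam.comp ε.symm.injective
  refine ⟨A⁻¹.mulVec y, fun e => ?_⟩
  have h : A.mulVec (A⁻¹.mulVec y) = y := by
    rw [Matrix.mulVec_mulVec, Matrix.mul_nonsing_inv _ (isUnit_iff_ne_zero.2 hdet),
      Matrix.one_mulVec]
  have := congrFun h e
  simpa [Matrix.mulVec, dotProduct, A] using this

lemma rank_one_sum_aux {n : Type*} [Fintype n] [DecidableEq n] (y : n → n → ℂ) (a b : n) :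
    ∑ c, ∑ d, y c d *
      (((if a = c then 1 else 0) + (if a = d then 1 else 0)) *
      ((if b = c then 1 else 0) + (if b = d then 1 else 0))) =
      (if b = a then ∑ d, y a d + ∑ c, y c a else 0) + y a b + y b a := by
  have key : ∀ c d, y c d *
      (((if a = c then 1 else 0) + (if a = d then 1 else 0)) *
      ((if b = c then 1 else 0) + (if b = d then 1 else 0))) =
      (if a = c then (if b = c then y c d else 0) else 0) +
      (if a = c then (if b = d then y c d else 0) else 0) +
      (if a = d then (if b = c then y c d else 0) else 0) +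
      (if a = d then (if b = d then y c d else 0) else 0) := by
    intro c d
    split_ifs <;> ring
  simp_rw [key, Finset.sum_add_distrib]
  have h1 : ∑ c, ∑ d, (if a = c then (if b = c then y c d else 0) else 0) =
      if b = a then ∑ d, y a d else 0 := by
    rw [Finset.sum_comm]
    simp only [Finset.sum_ite_eq, Finset.mem_univ, if_true]
    split_ifs <;> simp
  have h2 : ∑ c, ∑ d, (if a = c then (if b = d then y c d else 0) else 0) = y a b := by
    rw [Finset.sum_comm]
    simp only [Finset.sum_ite_eq, Finset.mem_univ, if_true]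
  have h3 : ∑ c, ∑ d, (if a = d then (if b = c then y c d else 0) else 0) = y b a := by
    simp only [Finset.sum_ite_eq, Finset.mem_univ, if_true]
  have h4 : ∑ c, ∑ d, (if a = d then (if b = d then y c d else 0) else 0) =
      if b = a then ∑ c, y c a else 0 := by
    simp only [Finset.sum_ite_eq, Finset.mem_univ, if_true]
    split_ifs <;> simp
  rw [h1, h2, h3, h4]
  split_ifs <;> ring

/-- a symmetric matrix is a combination of rank one matrices -/
lemma rank_one_sum {n : Type*} [Fintype n] [DecidableEq n] (S : n → n → ℂ)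
    (hS : ∀ a b, S a b = S b a) (a b : n) :
    ∑ c, ∑ d, (if c = d then (2 * S c c - ∑ x, S c x) / 4 else S c d / 2) *
      (((if a = c then 1 else 0) + (if a = d then 1 else 0)) *
      ((if b = c then 1 else 0) + (if b = d then 1 else 0))) = S a b := by
  have h := rank_one_sum_aux (fun c d => if c = d then (2 * S c c - ∑ x, S c x) / 4 else S c d / 2)
    a b
  rw [h]
  by_cases hab : a = b
  · subst hab
    have h1 : ∑ d, (if a = d then (2 * S a a - ∑ x, S a x) / 4 else S a d / 2) =
        (2 * S a a - ∑ x, S a x) / 4 - S a a / 2 + ∑ d, S a d / 2 := by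
      rw [← Finset.add_sum_erase _ _ (Finset.mem_univ a),
        ← Finset.add_sum_erase Finset.univ (fun d => S a d / 2) (Finset.mem_univ a)]
      have : ∑ x ∈ Finset.univ.erase a, (if a = x then (2 * S a a - ∑ x, S a x) / 4 else S a x / 2)
        = ∑ x ∈ Finset.univ.erase a, S a x / 2 := by
        refine Finset.sum_congr rfl fun x hx => ?_
        rw [if_neg (Finset.ne_of_mem_erase hx).symm]
      rw [this, if_pos rfl]
      ring
    have h2 : ∑ c, (if c = a then (2 * S c c - ∑ x, S c x) / 4 else S c a / 2) =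
        ∑ d, (if a = d then (2 * S a a - ∑ x, S a x) / 4 else S a d / 2) := by
      refine Finset.sum_congr rfl fun c _ => ?_
      by_cases hc : c = a
      · subst hc; simp
      · rw [if_neg hc, if_neg (Ne.symm hc), hS c a]
    rw [h2, h1, if_pos rfl, if_pos rfl, ← Finset.sum_div]
    ring
  · rw [if_neg (Ne.symm hab), if_neg hab, if_neg (Ne.symm hab), hS b a]
    ring


variable {ι : Type} [Fintype ι] (lam : ι → ℂ)

lemma exists_V (hlam : Function.Injective lam) (hcard : Fintype.card ι = 576)
    (S : J → Fin 6 → Fin 6 → ℂ) (hS : ∀ e a b, S e a b = S e b a) :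
    ∃ V : Fin 6 → ι → ℂ, ∀ e a b, gram lam V e a b = S e a b := by
  classical
  have hc : Fintype.card ((Fin 6 × Fin 6) × J) = Fintype.card ι := by
    rw [Fintype.card_prod, card_J, hcard]
    simp
  let φ : (Fin 6 × Fin 6) × J ≃ ι := Fintype.equivOfCardEq hc
  have hz : ∀ cd : Fin 6 × Fin 6, ∃ z : J → ℂ, ∀ e, ∑ e', lam (φ (cd, e')) ^ (ε e : ℕ) * z e' =
      if cd.1 = cd.2 then (2 * S e cd.1 cd.1 - ∑ x, S e cd.1 x) / 4 else S e cd.1 cd.2 / 2 := by
    intro cd
    refine exists_vander (fun e' => lam (φ (cd, e'))) ?_ _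
    intro e e' h
    have := φ.injective (hlam h)
    simpa using this
  choose z hz using hz
  have hsq : ∀ q : (Fin 6 × Fin 6) × J, ∃ s : ℂ, s * s = z q.1 q.2 := fun q => by
    obtain ⟨s, hs⟩ := IsAlgClosed.exists_pow_nat_eq (z q.1 q.2) (n := 2) (by norm_num)
    exact ⟨s, by rw [← hs, sq]⟩
  choose s hs using hsq
  let u : (Fin 6 × Fin 6) → Fin 6 → ℂ := fun cd a =>
    (if a = cd.1 then 1 else 0) + (if a = cd.2 then 1 else 0)
  refine ⟨fun a i => s (φ.symm i) * u (φ.symm i).1 a, fun e a b => ?_⟩
  rw [gram, ← Equiv.sum_comp φ]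
  simp only [Equiv.symm_apply_apply, Algebra.algebraMap_self, RingHom.id_apply]
  rw [Fintype.sum_prod_type]
  have h1 : ∀ cd : Fin 6 × Fin 6, ∑ e', lam (φ (cd, e')) ^ (ε e : ℕ) *
      (s (cd, e') * u cd a * (s (cd, e') * u cd b)) =
      (if cd.1 = cd.2 then (2 * S e cd.1 cd.1 - ∑ x, S e cd.1 x) / 4 else S e cd.1 cd.2 / 2) *
      (((if a = cd.1 then 1 else 0) + (if a = cd.2 then 1 else 0)) *
      ((if b = cd.1 then 1 else 0) + (if b = cd.2 then 1 else 0))) := by
    intro cd
    rw [← hz cd e, Finset.sum_mul]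
    refine Finset.sum_congr rfl fun e' _ => ?_
    have := hs (cd, e')
    simp only at this
    rw [← this]
    simp only [u]
    ring
  rw [Finset.sum_congr rfl fun cd _ => h1 cd, Fintype.sum_prod_type]
  exact rank_one_sum (S e) (hS e) a b

theorem exists_QR (hlam : Function.Injective lam) (hcard : Fintype.card ι = 576)
    (Q : Matrix J J ℂ) (R : Matrix J (Fin 5) ℂ) :
    ∃ V : Fin 6 → ι → ℂ, Qm lam V = Q ∧ Rm lam V = R := by
  classical
  let cnt : Sym2 (Fin 5) → ℕ := fun e =>
    (Finset.univ.filter fun p : Fin 5 × Fin 5 => s(p.1, p.2) = e).card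
  have hcnt : ∀ e, cnt e ≠ 0 := by
    intro e
    induction e using Sym2.ind with
    | _ a b =>
      refine Finset.card_ne_zero_of_mem (a := (a, b)) ?_
      simp
  let S : J → Fin 6 → Fin 6 → ℂ := fun e a b =>
    Fin.cases (Fin.cases (Q e none) (fun b' => R e b' / 2) b)
      (fun a' => Fin.cases (R e a' / 2) (fun b' => Q e (some s(a', b')) / cnt s(a', b')) b) a
  have hS : ∀ e a b, S e a b = S e b a := by
    intro e a b
    refine Fin.cases ?_ (fun a' => ?_) a
    · refine Fin.cases ?_ (fun b' => ?_) b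
      · rfl
      · rfl
    · refine Fin.cases ?_ (fun b' => ?_) b
      · rfl
      · simp only [S, Fin.cases_succ]
        rw [Sym2.eq_swap]
  obtain ⟨V, hV⟩ := exists_V lam hlam hcard S hS
  refine ⟨V, ?_, ?_⟩
  · ext e e'
    rcases e' with _ | e'
    · simp only [Qm, Matrix.of_apply, coefQ, hV]
      rfl
    · simp only [Qm, Matrix.of_apply, coefQ, hV]
      have h1 : ∀ p ∈ Finset.univ.filter (fun p : Fin 5 × Fin 5 => s(p.1, p.2) = e'),
          S e p.1.succ p.2.succ = Q e (some e') / cnt e' := by
        intro p hp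
        rw [Finset.mem_filter] at hp
        rw [← hp.2]
        rfl
      rw [Finset.sum_congr rfl h1, Finset.sum_const, nsmul_eq_mul]
      exact mul_div_cancel₀ _ (by exact_mod_cast hcnt e')
  · ext e b
    simp only [Rm, Matrix.of_apply, coefR, hV]
    change R e b / 2 + R e b / 2 = R e b
    ring

end Pool.Agent.MP37c606
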