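import Mathlib
import Pool.Agent.Lib.MP_37c606_ag.Surj

/-!
# The genericity condition on the centre
-/

set_option autoImplicit false

open MvPolynomial

namespace Pool.Agent.MP37c606

variable {ι : Type} [Fintype ι] (lam : ι → ℂ)

theorem exists_generic (hlam : Function.Injective lam) (hcard : Fintype.card ι = 576)
    (Θ : MvPolynomial (J × Fin 5) ℂ) (hΘ : Θ ≠ 0) :
    ∃ P : MvPolynomial (Fin 6 × ι) ℂ, P ≠ 0 ∧
      ∀ V : Fin 6 → ι → ℂ, eval (fun q => V q.1 q.2) P ≠ 0 →
        (Qm lam V).det ≠ 0 ∧ eval (fun p => Atop lam V p.1 p.2) Θ ≠ 0 := by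
  classical
  let Ru := MvPolynomial (Fin 6 × ι) ℂ
  let Vu : Fin 6 → ι → Ru := fun a i => X (a, i)
  set D : Ru := (Qm lam Vu).det with hD
  have hDV : ∀ V : Fin 6 → ι → ℂ, aeval (fun q : Fin 6 × ι => V q.1 q.2) D = (Qm lam V).det := by
    intro V
    rw [hD, ← det_Qm_map]
    congr 2
    ext a i
    simp [Vu]
  let S₀ := Localization.Away D
  let j : Ru →ₐ[ℂ] S₀ := (Algebra.ofId Ru S₀).restrictScalars ℂ
  have hj : ∀ z, j z = algebraMap Ru S₀ z := fun z => rfl
  have hVs : IsUnit (Qm lam (fun a i => j (Vu a i))).det := by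
    rw [det_Qm_map, hj]
    exact IsLocalization.Away.algebraMap_isUnit D
  let x : J × Fin 5 → S₀ := fun p => Atop lam (fun a i => j (Vu a i)) p.1 p.2
  obtain ⟨⟨P₁, ⟨_, k, rfl⟩⟩, hP₁⟩ := IsLocalization.surj (Submonoid.powers D) (aeval x Θ : S₀)
  simp only at hP₁
  -- evaluation
  have key : ∀ V : Fin 6 → ι → ℂ, (Qm lam V).det ≠ 0 →
      eval (fun p => Atop lam V p.1 p.2) Θ * (Qm lam V).det ^ k =
        aeval (fun q : Fin 6 × ι => V q.1 q.2) P₁ := by
    intro V hV
    let f : Ru →ₐ[ℂ] ℂ := aeval (fun q => V q.1 q.2)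
    have hfD : f D = (Qm lam V).det := hDV V
    have hfu : IsUnit (f D) := by rw [hfD]; exact isUnit_iff_ne_zero.2 hV
    let g : S₀ →ₐ[ℂ] ℂ := IsLocalization.liftAlgHom (M := Submonoid.powers D) (f := f) (by
      rintro ⟨y, n, rfl⟩
      simpa using hfu.pow n)
    have hg : ∀ z : Ru, g (algebraMap Ru S₀ z) = f z := fun z => by
      simp [g]
    have hgV : (fun a i => g (j (Vu a i))) = V := by
      ext a i
      rw [hj, hg]
      exact aeval_X _ _
    have hx : ∀ p, g (x p) = Atop lam V p.1 p.2 := by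
      intro p
      have h1 := map_Atop lam g (fun a i => j (Vu a i)) hVs
      rw [hgV] at h1
      rw [← h1]
      rfl
    have h2 := congrArg g hP₁
    rw [map_mul, hg, hg, map_pow, hfD, MvPolynomial.comp_aeval_apply] at h2
    simp only [hx] at h2
    rw [← MvPolynomial.aeval_eq_eval]
    exact h2
  refine ⟨P₁ * D, ?_, fun V hV => ?_⟩
  · obtain ⟨A₀, hA₀⟩ : ∃ A₀ : J × Fin 5 → ℂ, eval A₀ Θ ≠ 0 := by
      by_contra hcon
      push Not at hcon
      exact hΘ (MvPolynomial.funext fun x => by rw [hcon, map_zero])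
    obtain ⟨V, hQ, hR⟩ := exists_QR lam hlam hcard 1 (-(Matrix.of fun e b => A₀ (e, b)))
    have hA : ∀ p : J × Fin 5, Atop lam V p.1 p.2 = A₀ p := by
      intro p
      simp [Atop, hQ, hR]
    have h1 := key V (by rw [hQ]; simp)
    rw [hQ, Matrix.det_one, one_pow, mul_one] at h1
    simp only [hA] at h1
    intro h0
    rcases mul_eq_zero.1 h0 with h | h
    · rw [h, map_zero] at h1
      exact hA₀ h1
    · have h2 := hDV V
      rw [h, map_zero, hQ, Matrix.det_one] at h2
      exact one_ne_zero h2.symm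
  · rw [map_mul, mul_ne_zero_iff] at hV
    obtain ⟨h1, h2⟩ := hV
    have h3 : (Qm lam V).det ≠ 0 := by
      rw [← hDV, MvPolynomial.aeval_eq_eval]
      exact h2
    refine ⟨h3, ?_⟩
    have h4 := key V h3
    rw [MvPolynomial.aeval_eq_eval] at h4
    intro h0
    rw [h0, zero_mul] at h4
    exact h1 h4.symm

end Pool.Agent.MP37c606
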