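import Mathlib
import Pool.Agent.Lib.MP_37c606_ag.Fibre

/-!
# A fibre of length `12`
-/

set_option autoImplicit false

open MvPolynomial

namespace Pool.Agent.MP37c606

/-- exponent of `X a * X b` -/
noncomputable def E (a b : Fin 6) : Fin 6 →₀ ℕ := Finsupp.single a 1 + Finsupp.single b 1

lemma E_comm (a b : Fin 6) : E a b = E b a := add_comm _ _

lemma E_eq (a b c d : Fin 6) : E a b = E c d ↔ (a = c ∧ b = d) ∨ (a = d ∧ b = c) := by
  rw [E, E, Finsupp.single_add_single_eq_single_add_single one_ne_zero one_ne_zero]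
  simp

/-- exponent of `mon X e` -/
noncomputable def dm : J → (Fin 6 →₀ ℕ)
  | none => E 0 0
  | some e => Sym2.lift ⟨fun a b => E a.succ b.succ, fun _ _ => E_comm _ _⟩ e

lemma X_mul_X (a b : Fin 6) : (X a * X b : MvPolynomial (Fin 6) ℂ) = monomial (E a b) 1 := by
  rw [X, X, monomial_mul, one_mul, E]

lemma mon_X (e : J) : mon (X : Fin 6 → MvPolynomial (Fin 6) ℂ) e = monomial (dm e) 1 := by
  rcases e with _ | e
  · rw [mon_none, X_mul_X, dm]
  · induction e using Sym2.ind with
    | _ a b => rw [mon_some, X_mul_X, dm, Sym2.lift_mk]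

lemma degree_E (a b : Fin 6) : (E a b).degree = 2 := by
  rw [E, map_add, Finsupp.degree_single, Finsupp.degree_single]

lemma dm_exists (e : J) : ∃ a b, dm e = E a b := by
  rcases e with _ | e
  · exact ⟨0, 0, rfl⟩
  · induction e using Sym2.ind with
    | _ a b => exact ⟨a.succ, b.succ, rfl⟩

lemma degree_dm (e : J) : (dm e).degree = 2 := by
  obtain ⟨a, b, h⟩ := dm_exists e
  rw [h, degree_E]

lemma dm_injective : Function.Injective dm := by
  intro e e' h
  rcases e with _ | e <;> rcases e' with _ | e'
  · rfl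
  · induction e' using Sym2.ind with
    | _ a b =>
      exfalso
      change E 0 0 = E a.succ b.succ at h
      rw [E_eq] at h
      rcases h with ⟨h, _⟩ | ⟨h, _⟩ <;> exact (Fin.succ_ne_zero _ h.symm)
  · induction e using Sym2.ind with
    | _ a b =>
      exfalso
      change E a.succ b.succ = E 0 0 at h
      rw [E_eq] at h
      rcases h with ⟨h, _⟩ | ⟨h, _⟩ <;> exact (Fin.succ_ne_zero _ h)
  · induction e using Sym2.ind with
    | _ a b =>
      induction e' using Sym2.ind with
      | _ c d =>
        change E a.succ b.succ = E c.succ d.succ at h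
        rw [E_eq] at h
        congr 1
        rw [Sym2.eq_iff]
        rcases h with ⟨h1, h2⟩ | ⟨h1, h2⟩
        · exact Or.inl ⟨Fin.succ_injective _ h1, Fin.succ_injective _ h2⟩
        · exact Or.inr ⟨Fin.succ_injective _ h1, Fin.succ_injective _ h2⟩

lemma dm_ne (e : J) (b : Fin 5) : dm e ≠ E 0 b.succ := by
  intro h
  rcases e with _ | e
  · change E 0 0 = E 0 b.succ at h
    rw [E_eq] at h
    rcases h with ⟨_, h⟩ | ⟨h, _⟩ <;> exact (Fin.succ_ne_zero _ h.symm)
  · induction e using Sym2.ind with
    | _ c d =>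
      change E c.succ d.succ = E 0 b.succ at h
      rw [E_eq] at h
      rcases h with ⟨h, _⟩ | ⟨_, h⟩ <;> exact (Fin.succ_ne_zero _ h)

lemma E_succ_injective (b c : Fin 5) (h : E 0 b.succ = E 0 c.succ) : b = c := by
  rw [E_eq] at h
  rcases h with ⟨_, h⟩ | ⟨h, _⟩
  · exact Fin.succ_injective _ h
  · exact absurd h.symm (Fin.succ_ne_zero _)

/-- the coordinates modulo the ideal -/
noncomputable def psi (A : Matrix J (Fin 5) ℂ) : MvPolynomial (Fin 6) ℂ →ₗ[ℂ] (BI → ℂ) where
  toFun f
    | none => coeff 0 f
    | some (Sum.inl a) => coeff (Finsupp.single a 1) f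
    | some (Sum.inr b) => coeff (E 0 b.succ) f + ∑ e, A e b * coeff (dm e) f
  map_add' f g := by
    funext i
    rcases i with _ | i | i
    · simp
    · simp
    · simp only [coeff_add, mul_add, Finset.sum_add_distrib, Pi.add_apply]
      ring
  map_smul' c f := by
    funext i
    rcases i with _ | i | i
    · simp
    · simp
    · simp only [coeff_smul, smul_eq_mul, Pi.smul_apply, RingHom.id_apply, mul_add,
        Finset.mul_sum]
      congr 1
      refine Finset.sum_congr rfl fun e _ => by ring

lemma psi_none (A : Matrix J (Fin 5) ℂ) (f : MvPolynomial (Fin 6) ℂ) :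
    psi A f none = coeff 0 f := rfl
lemma psi_inl (A : Matrix J (Fin 5) ℂ) (f : MvPolynomial (Fin 6) ℂ) (a : Fin 6) :
    psi A f (some (Sum.inl a)) = coeff (Finsupp.single a 1) f := rfl
lemma psi_inr (A : Matrix J (Fin 5) ℂ) (f : MvPolynomial (Fin 6) ℂ) (b : Fin 5) :
    psi A f (some (Sum.inr b)) = coeff (E 0 b.succ) f + ∑ e, A e b * coeff (dm e) f := rfl

lemma coeff_mul_of_homogeneous (h q : MvPolynomial (Fin 6) ℂ) (hq : q.IsHomogeneous 2)
    (d : Fin 6 →₀ ℕ) (hd : d.degree ≤ 2) : coeff d (h * q) = coeff 0 h * coeff d q := by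
  classical
  rw [coeff_mul, Finset.sum_eq_single (0, d)]
  · rintro ⟨x, y⟩ hxy hne
    rw [Finset.HasAntidiagonal.mem_antidiagonal] at hxy
    simp only at hxy ⊢
    by_cases hy : y.degree = 2
    · exfalso
      have h1 : x.degree + y.degree = d.degree := by rw [← map_add, hxy]
      have h2 : x = 0 := by
        rw [← Finsupp.degree_eq_zero_iff]
        omega
      subst h2
      rw [zero_add] at hxy
      exact hne (by rw [hxy])
    · rw [hq.coeff_eq_zero hy, mul_zero]
  · intro h
    exact absurd (Finset.HasAntidiagonal.mem_antidiagonal.2 (zero_add _)) h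

lemma psi_mul (A : Matrix J (Fin 5) ℂ) (h q : MvPolynomial (Fin 6) ℂ) (hq : q.IsHomogeneous 2) :
    psi A (h * q) = coeff 0 h • psi A q := by
  funext i
  rcases i with _ | i | i
  · rw [psi_none, coeff_mul_of_homogeneous h q hq 0 (by simp)]
    rfl
  · rw [psi_inl, coeff_mul_of_homogeneous h q hq _ (by rw [Finsupp.degree_single]; norm_num)]
    rfl
  · rw [psi_inr, coeff_mul_of_homogeneous h q hq _ (by rw [degree_E])]
    simp only [Pi.smul_apply, smul_eq_mul, psi_inr, mul_add, Finset.mul_sum]
    congr 1
    refine Finset.sum_congr rfl fun e _ => ?_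
    rw [coeff_mul_of_homogeneous h q hq _ (by rw [degree_dm])]
    ring

lemma psi_monomial_E (A : Matrix J (Fin 5) ℂ) (b : Fin 5) :
    psi A (monomial (E 0 b.succ) 1) = Pi.single (some (Sum.inr b)) 1 := by
  classical
  funext i
  rcases i with _ | i | i
  · rw [psi_none, coeff_monomial, if_neg, Pi.single_eq_of_ne (by simp)]
    intro h
    have := congrArg Finsupp.degree h
    rw [degree_E] at this
    simp at this
  · rw [psi_inl, coeff_monomial, if_neg, Pi.single_eq_of_ne (by simp)]
    intro h
    have := congrArg Finsupp.degree h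
    rw [degree_E, Finsupp.degree_single] at this
    omega
  · rw [psi_inr, coeff_monomial]
    have h1 : ∑ e, A e i * coeff (dm e) (monomial (E 0 b.succ) (1 : ℂ)) = 0 := by
      refine Finset.sum_eq_zero fun e _ => ?_
      rw [coeff_monomial, if_neg (dm_ne e b).symm, mul_zero]
    rw [h1, add_zero]
    by_cases hib : i = b
    · subst hib
      simp
    · rw [if_neg, Pi.single_eq_of_ne]
      · simpa using hib
      · exact fun h => hib (E_succ_injective _ _ h).symm

lemma psi_monomial_dm (A : Matrix J (Fin 5) ℂ) (e : J) :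
    psi A (monomial (dm e) 1) = fun i => match i with
      | none => 0
      | some (Sum.inl _) => 0
      | some (Sum.inr b) => A e b := by
  classical
  funext i
  rcases i with _ | i | i
  · rw [psi_none, coeff_monomial, if_neg]
    intro h
    have := congrArg Finsupp.degree h
    rw [degree_dm] at this
    simp at this
  · rw [psi_inl, coeff_monomial, if_neg]
    intro h
    have := congrArg Finsupp.degree h
    rw [degree_dm, Finsupp.degree_single] at this
    omega
  · rw [psi_inr, coeff_monomial, if_neg (dm_ne e i), zero_add, Finset.sum_eq_single e]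
    · rw [coeff_monomial, if_pos rfl, mul_one]
    · intro e' _ he
      rw [coeff_monomial, if_neg (fun h => he (dm_injective h).symm), mul_zero]
    · intro h; exact absurd (Finset.mem_univ _) h

lemma psi_bas (A : Matrix J (Fin 5) ℂ) (i : BI) :
    psi A (bas X i) = Pi.single i 1 := by
  classical
  rcases i with _ | i | i
  · rw [bas_none]
    funext k
    rcases k with _ | k | k
    · rw [psi_none]; simp
    · rw [psi_inl, coeff_one, if_neg, Pi.single_eq_of_ne (by simp)]
      intro h
      have := congrArg Finsupp.degree h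
      rw [Finsupp.degree_single] at this
      simp at this
    · rw [psi_inr, coeff_one, if_neg, Pi.single_eq_of_ne (by simp), zero_add]
      · refine Finset.sum_eq_zero fun e _ => ?_
        rw [coeff_one, if_neg, mul_zero]
        intro h
        have := congrArg Finsupp.degree h
        rw [degree_dm] at this
        simp at this
      · intro h
        have := congrArg Finsupp.degree h
        rw [degree_E] at this
        simp at this
  · rw [bas_inl]
    funext k
    have h0 : ∀ d : Fin 6 →₀ ℕ, d.degree ≠ 1 → coeff d (X i : MvPolynomial (Fin 6) ℂ) = 0 := by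
      intro d hd
      exact (isHomogeneous_X ℂ i).coeff_eq_zero hd
    rcases k with _ | k | k
    · rw [psi_none, h0 0 (by simp), Pi.single_eq_of_ne (by simp)]
    · rw [psi_inl]
      by_cases hki : k = i
      · subst hki
        simp
      · rw [Pi.single_eq_of_ne (by simpa using hki), X, coeff_monomial, if_neg]
        intro h
        exact hki ((Finsupp.single_left_inj one_ne_zero).1 h).symm
    · rw [psi_inr, h0 _ (by rw [degree_E]; norm_num), Pi.single_eq_of_ne (by simp), zero_add]
      refine Finset.sum_eq_zero fun e _ => ?_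
      rw [h0 _ (by rw [degree_dm]; norm_num), mul_zero]
  · rw [bas_inr, X_mul_X, psi_monomial_E]

variable {ι : Type} [Fintype ι] (lam : ι → ℂ)

omit [Fintype ι] in
lemma restr_X (V : Fin 6 → ι → ℂ) (p : ι → ℂ) (i : ι) :
    restr V p (X i) = algebraMap ℂ (MvPolynomial (Fin 6) ℂ) (p i) + ∑ a, V a i • X a := by
  rw [restr, aeval_X]
  congr 1
  refine Finset.sum_congr rfl fun a _ => ?_
  rw [smul_eq_C_mul]

lemma restr_quad (V : Fin 6 → ι → ℂ) (p : ι → ℂ) (e : J) :
    restr V p (quad lam (ε e)) =
      ∑ i, lam i ^ (ε e : ℕ) • (algebraMap ℂ (MvPolynomial (Fin 6) ℂ) (p i) +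
        ∑ a, V a i • X a) ^ 2 := by
  rw [quad, map_sum]
  refine Finset.sum_congr rfl fun i _ => ?_
  rw [map_mul, map_pow _ (X i), restr_X, smul_eq_C_mul]
  congr 1
  rw [restr, aeval_C, algebraMap_eq]

lemma um_X (b : Fin 5) :
    um (X : Fin 6 → MvPolynomial (Fin 6) ℂ) b = monomial (E 0 b.succ) 1 := by
  rw [um, X_mul_X]

lemma restr_quad_special (V : Fin 6 → ι → ℂ) (p : ι → ℂ) (e : J)
    (hlin : ∀ a, linc lam V p e a = 0) (hcon : conc lam p e = 0) :
    restr V p (quad lam (ε e)) =
      ∑ e', Qm lam V e e' • mon (X : Fin 6 → MvPolynomial (Fin 6) ℂ) e' +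
        ∑ b, Rm lam V e b • um (X : Fin 6 → MvPolynomial (Fin 6) ℂ) b := by
  rw [restr_quad, expand, sum_form]
  simp only [hlin, hcon, zero_smul, Finset.sum_const_zero, add_zero]
  rfl

lemma psi_restr (V : Fin 6 → ι → ℂ) (hQ : (Qm lam V).det ≠ 0) (p : ι → ℂ) (e : J)
    (hlin : ∀ a, linc lam V p e a = 0) (hcon : conc lam p e = 0) :
    psi (Atop lam V) (restr V p (quad lam (ε e))) = 0 := by
  rw [restr_quad_special lam V p e hlin hcon, map_add, map_sum, map_sum]
  simp only [map_smul, mon_X, um_X, psi_monomial_dm, psi_monomial_E]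
  funext i
  simp only [Pi.add_apply, Finset.sum_apply, Pi.smul_apply, smul_eq_mul]
  rcases i with _ | i | i
  · simp
  · simp
  · have h1 : ∑ e', Qm lam V e e' * Atop lam V e' i = - Rm lam V e i := by
      have h2 : Qm lam V * Atop lam V = - Rm lam V := by
        rw [Atop, Matrix.mul_neg, ← Matrix.mul_assoc,
          Matrix.mul_nonsing_inv _ (isUnit_iff_ne_zero.2 hQ), Matrix.one_mul]
      rw [← Matrix.mul_apply, h2, Matrix.neg_apply]
    simp only
    rw [h1, Finset.sum_eq_single i]
    · simp
    · intro b _ hb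
      rw [Pi.single_eq_of_ne (by simpa using hb.symm), mul_zero]
    · intro h; exact absurd (Finset.mem_univ _) h

lemma restr_homogeneous (V : Fin 6 → ι → ℂ) (p : ι → ℂ) (e : J)
    (hlin : ∀ a, linc lam V p e a = 0) (hcon : conc lam p e = 0) :
    (restr V p (quad lam (ε e))).IsHomogeneous 2 := by
  rw [restr_quad_special lam V p e hlin hcon]
  refine IsHomogeneous.add (IsHomogeneous.sum _ _ _ fun e' _ => ?_)
    (IsHomogeneous.sum _ _ _ fun b _ => ?_)
  · rw [smul_eq_C_mul]
    refine IsHomogeneous.C_mul ?_ _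
    rw [mon_X]
    exact isHomogeneous_monomial _ (degree_dm e')
  · rw [smul_eq_C_mul]
    refine IsHomogeneous.C_mul ?_ _
    rw [um_X]
    exact isHomogeneous_monomial _ (degree_E _ _)

theorem finrank_special (V : Fin 6 → ι → ℂ) (hQ : (Qm lam V).det ≠ 0)
    (hG : (1 - Gmat (fun e b => Atop lam V e b)).det ≠ 0) (p : ι → ℂ)
    (hlin : ∀ e a, linc lam V p e a = 0) (hcon : ∀ e, conc lam p e = 0) :
    Module.finrank ℂ (FibreRing (fermatIdeal 16 lam) V p) = 12 := by
  classical
  set t : Fin 6 → FibreRing (fermatIdeal 16 lam) V p := fun a => Ideal.Quotient.mk _ (X a) with ht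
  have hsp := span_bas_eq_top t (adjoin_fibre _ V p) (acst lam V p)
    (fun e => mon_eq lam t V p hQ (fun e => fibre_rel lam V p (ε e).2) e)
    (isUnit_iff_ne_zero.2 hG)
  have hker : ∀ f ∈ (fermatIdeal 16 lam).map (restr V p), psi (Atop lam V) f = 0 := by
    intro f hf
    rw [fermatIdeal, Ideal.map_span, ← Set.range_comp] at hf
    obtain ⟨h, rfl⟩ := (Ideal.mem_span_range_iff_exists_fun).1 hf
    rw [map_sum]
    refine Finset.sum_eq_zero fun j _ => ?_
    obtain ⟨e, rfl⟩ := ε.surjective j
    simp only [Function.comp]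
    rw [psi_mul _ _ _ (restr_homogeneous lam V p e (hlin e) (hcon e)),
      psi_restr lam V hQ p e (hlin e) (hcon e), smul_zero]
  have hli : LinearIndependent ℂ (bas t) := by
    rw [Fintype.linearIndependent_iff]
    intro c hc
    have h1 : (Ideal.Quotient.mk ((fermatIdeal 16 lam).map (restr V p)))
        (∑ i, c i • bas X i) = 0 := by
      rw [← hc, map_sum]
      refine Finset.sum_congr rfl fun i _ => ?_
      rw [← map_bas (Ideal.Quotient.mk ((fermatIdeal 16 lam).map (restr V p))) X i]
      rfl
    rw [Ideal.Quotient.eq_zero_iff_mem] at h1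
    have h2 := hker _ h1
    rw [map_sum] at h2
    simp only [map_smul, psi_bas] at h2
    intro i
    have h3 := congrFun h2 i
    simpa [Finset.sum_apply, Pi.single_apply] using h3
  have := Module.finrank_eq_card_basis (Module.Basis.mk hli hsp.ge)
  rw [this]
  simp [BI]

end Pool.Agent.MP37c606
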