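import Mathlib
import Pool.Agent.Lib.MP_37c606_ag.Special
import Pool.Agent.Lib.MP_37c606_ag.FibreNot
import Pool.Agent.Lib.MP_37c606_ag.Generic
import Pool.Agent.Lib.MP_37c606_ag.Krull

/-!
# General projections of the complete intersection have non-smoothable fibres of length `12`
-/

set_option autoImplicit false

open MvPolynomial

namespace Pool.Agent.MP37c606

lemma Gmat_map {R R' : Type*} [CommRing R] [CommRing R'] (f : R →+* R') (A : J → Fin 5 → R) :
    (1 - Gmat (fun e b => f (A e b))).det = f (1 - Gmat A).det := by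
  rw [RingHom.map_det]
  congr 1
  ext b γ
  simp only [Matrix.sub_apply, Gmat, Matrix.of_apply, RingHom.mapMatrix_apply, Matrix.map_apply,
    map_sub, map_sum, map_mul, Matrix.one_apply]
  split_ifs <;> simp

variable {ι : Type} [Fintype ι] (lam : ι → ℂ)

lemma eval_quad_of_mem {c : ℕ} (x : ι → ℂ) (h : ∀ f ∈ fermatIdeal c lam, eval x f = 0)
    {j : ℕ} (hj : j < c) : ∑ i, lam i ^ j * x i ^ 2 = 0 := by
  rw [← eval_quad]
  exact h _ (quad_mem lam hj)

theorem main_aux (hlam : Function.Injective lam) (hcard : Fintype.card ι = 576) :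
    ∃ P : MvPolynomial (Fin 6 × ι) ℂ, P ≠ 0 ∧
      ∀ V : Fin 6 → ι → ℂ, eval (fun q => V q.1 q.2) P ≠ 0 →
        LinearIndependent ℂ V ∧
        (∀ x ∈ Submodule.span ℂ (Set.range V), (∀ f ∈ fermatIdeal 16 lam, eval x f = 0) → x = 0) ∧
        (∃ w ∉ Submodule.span ℂ (Set.range V),
          Module.finrank ℂ (FibreRing (fermatIdeal 16 lam) V w) = 12) ∧
        ∀ w, Module.finrank ℂ (FibreRing (fermatIdeal 16 lam) V w) = 12 →
          ¬ IsSmoothable (FibreRing (fermatIdeal 16 lam) V w) := by
  classical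
  obtain ⟨Φ, hΦ0, hΦ⟩ := exists_phi
  let Xu : J → Fin 5 → MvPolynomial (J × Fin 5) ℂ := fun e b => X (e, b)
  have hdet : ∀ A : J × Fin 5 → ℂ, eval A (1 - Gmat Xu).det =
      (1 - Gmat (fun e b => A (e, b))).det := by
    intro A
    rw [← Gmat_map (eval A) Xu]
    simp only [Xu, eval_X]
  have hdet0 : (1 - Gmat Xu).det ≠ 0 := by
    intro h
    have h1 := hdet 0
    rw [h, map_zero] at h1
    have h2 : Gmat (fun (_ : J) (_ : Fin 5) => (0 : ℂ)) = 0 := by
      ext b γ
      simp [Gmat]
    simp only [Pi.zero_apply] at h1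
    rw [h2, sub_zero, Matrix.det_one] at h1
    exact zero_ne_one h1
  obtain ⟨P, hP0, hP⟩ := exists_generic lam hlam hcard (Φ * (1 - Gmat Xu).det)
    (mul_ne_zero hΦ0 hdet0)
  refine ⟨P, hP0, fun V hV => ?_⟩
  obtain ⟨hQ, hΘ⟩ := hP V hV
  rw [map_mul, mul_ne_zero_iff, hdet] at hΘ
  obtain ⟨hΦV, hG⟩ := hΘ
  have hzero : ∀ s : Fin 6 → ℂ, (∀ f ∈ fermatIdeal 16 lam, eval (∑ a, s a • V a) f = 0) →
      s = 0 := by
    intro s h
    refine good_zero lam V hQ hG s fun e => ?_
    have := eval_quad_of_mem lam _ h (ε e).2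
    rw [← this]
    refine Finset.sum_congr rfl fun i _ => ?_
    congr 2
    simp only [Finset.sum_apply, Pi.smul_apply, smul_eq_mul]
    exact Finset.sum_congr rfl fun a _ => mul_comm _ _
  have hspan : ∀ x ∈ Submodule.span ℂ (Set.range V),
      (∀ f ∈ fermatIdeal 16 lam, eval x f = 0) → x = 0 := by
    intro x hx h
    obtain ⟨s, rfl⟩ := (Submodule.mem_span_range_iff_exists_fun ℂ).1 hx
    rw [hzero s h]
    simp
  have hmem0 : ∀ f ∈ fermatIdeal 16 lam, eval (0 : ι → ℂ) f = 0 := by
    intro f hf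
    have hle : fermatIdeal 16 lam ≤ RingHom.ker (eval (0 : ι → ℂ)) := by
      rw [fermatIdeal, Ideal.span_le]
      rintro _ ⟨j, rfl⟩
      rw [SetLike.mem_coe, RingHom.mem_ker, eval_quad]
      simp
    exact hle hf
  refine ⟨?_, hspan, ?_, fun w hw => fibre_not_smoothable lam V hQ hG Φ hΦ hΦV w hw⟩
  · rw [Fintype.linearIndependent_iff]
    intro s hs a
    have := hzero s (by rw [hs]; exact hmem0)
    rw [this]
    rfl
  · -- the special point
    let B : (Fin 16 × Fin 6) → MvPolynomial ι ℂ := fun q =>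
      ∑ i, C (lam i ^ (q.1 : ℕ) * V q.2 i) * X i
    let F : Fin 16 → MvPolynomial ι ℂ := fun j => quad lam j
    let s : Finset (MvPolynomial ι ℂ) := Finset.image B Finset.univ ∪ Finset.image F Finset.univ
    have hs : s.card < Fintype.card ι := by
      have h1 : s.card ≤ 96 + 16 := by
        refine (Finset.card_union_le _ _).trans (add_le_add ?_ ?_)
        · refine Finset.card_image_le.trans ?_
          simp
        · refine Finset.card_image_le.trans ?_
          simp
      omega
    obtain ⟨p, hp0, hp⟩ := exists_common_zero s (by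
      intro f hf
      rcases Finset.mem_union.1 hf with hf | hf
      · obtain ⟨q, _, rfl⟩ := Finset.mem_image.1 hf
        simp [B]
      · obtain ⟨j, _, rfl⟩ := Finset.mem_image.1 hf
        simp [F, quad]) hs
    have hpB : ∀ (j : Fin 16) (a : Fin 6), ∑ i, lam i ^ (j : ℕ) * V a i * p i = 0 := by
      intro j a
      have := hp (B (j, a)) (Finset.mem_union_left _ (Finset.mem_image_of_mem _ (Finset.mem_univ _)))
      simpa [B] using this
    have hpF : ∀ j : Fin 16, ∑ i, lam i ^ (j : ℕ) * p i ^ 2 = 0 := by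
      intro j
      have := hp (F j) (Finset.mem_union_right _ (Finset.mem_image_of_mem _ (Finset.mem_univ _)))
      rw [← eval_quad]
      exact this
    have hlin : ∀ e a, linc lam V p e a = 0 := by
      intro e a
      have := hpB (ε e) a
      rw [linc]
      have h2 : ∑ i, lam i ^ (ε e : ℕ) * (2 * (p i * V a i)) =
          2 * ∑ i, lam i ^ (ε e : ℕ) * V a i * p i := by
        rw [Finset.mul_sum]
        exact Finset.sum_congr rfl fun i _ => by ring
      rw [h2, this, mul_zero]
    have hcon : ∀ e, conc lam p e = 0 := by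
      intro e
      rw [conc, ← hpF (ε e)]
      exact Finset.sum_congr rfl fun i _ => by ring
    refine ⟨p, fun hmem => hp0 (hspan p hmem ?_), finrank_special lam V hQ hG p hlin hcon⟩
    have hle : fermatIdeal 16 lam ≤ RingHom.ker (eval p) := by
      rw [fermatIdeal, Ideal.span_le]
      rintro _ ⟨j, rfl⟩
      rw [SetLike.mem_coe, RingHom.mem_ker, eval_quad]
      exact hpF j
    exact fun f hf => hle hf

end Pool.Agent.MP37c606
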